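import Pool.Agent.H64.PC.Full
import Pool.Agent.H10.S6U.Chn

/-!
# Plan C: chains of closed contexts of longer and longer windows

`CSeq F w X M C c₀`: the context `C j` belongs to the window `w + j X`, it is a function of the line
and the window, and each context is a function of the next one up to the entropy `c₀`.

The information about the line grows by the entropy of the rows (`CSeq.sum`), and the rows are
nearly independent of one variable in most windows (`CSeq.mi`).
-/

set_option autoImplicit false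

namespace Pool.PC

open Finset Real
open Pool.Agent.H49.Ent Pool.Agent.H32.Dense Pool.STK Pool.KA Pool.KSAT Pool.K2S Pool.S6U

variable {m J : ℕ}

/-- **A chain of contexts** of the windows `w + j X`, `j ≤ M`. -/
structure CSeq (F : Fam m J) {S : ℕ → Type} (w X M : ℕ) (C : (j : ℕ) → F.Ω → S j) (c₀ : ℝ) :
    Prop where
  wJ : w + M * X ≤ J
  nn : 0 ≤ c₀
  det : ∀ j, j ≤ M → Det F.p (slam F (w + j * X)) (C j)
  T : ∀ j, j ≤ M → Det F.p (C j) (F.T1 (w + j * X))
  Z : ∀ j, j ≤ M → Det F.p (C j) F.Z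
  nest : ∀ j, j < M → CH F.p (C j) (C (j + 1)) ≤ c₀

section cseq

variable {F : Fam m J} {S : ℕ → Type} {w X M : ℕ} {C : (j : ℕ) → F.Ω → S j} {c₀ : ℝ}

theorem CSeq.le (h : CSeq F w X M C c₀) {j : ℕ} (hj : j ≤ M) : w + j * X ≤ J := by
  have h1 := h.wJ
  have h2 := Nat.mul_le_mul_right X hj
  omega

theorem CSeq.succ (j : ℕ) : w + (j + 1) * X = w + j * X + X := by ring

/-- One step, for any variable `V`. -/
theorem CSeq.step (h : CSeq F w X M C c₀) {j : ℕ} (hj : j < M) {R : Type} (V : F.Ω → R) :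
    nfo F (w + j * X) (C j) +
      CH F.p V (fun ω => (C j ω, F.T1 (w + (j + 1) * X) ω)) ≤
    nfo F (w + (j + 1) * X) (C (j + 1)) + c₀ + CH F.p V (C (j + 1)) := by
  have hp := F.isLaw.nonneg
  have h1 := Full.nfo_step F (w := w + j * X) (X := X) (by
    have := h.le (show j + 1 ≤ M by omega)
    rwa [CSeq.succ] at this) (C j) (C (j + 1)) (F.T1 (w + (j + 1) * X)) (h.det j hj.le)
    (h.Z j hj.le) (by rw [← CSeq.succ]; exact h.T (j + 1) hj) (by
      rw [← CSeq.succ]
      exact fun _ _ _ _ e => e)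
  rw [← CSeq.succ] at h1
  have h2 : CH F.p (C j) (fun ω => (C (j + 1) ω, F.Z ω)) ≤ c₀ :=
    (CH_mono_cond hp fun _ _ _ _ e => (Prod.ext_iff.mp e).1).trans (h.nest j hj)
  have h3 : CH F.p V (fun ω => (C j ω, F.T1 (w + (j + 1) * X) ω)) ≤
      CH F.p (C (j + 1)) (fun ω => (C j ω, F.T1 (w + (j + 1) * X) ω)) +
      CH F.p V (C (j + 1)) := by
    have h4 := CH_le_add hp V (C (j + 1)) (fun ω => (C j ω, F.T1 (w + (j + 1) * X) ω))
    have h5 : CH F.p V (fun ω => (C (j + 1) ω, (C j ω, F.T1 (w + (j + 1) * X) ω))) ≤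
        CH F.p V (C (j + 1)) := CH_mono_cond hp fun _ _ _ _ e => (Prod.ext_iff.mp e).1
    linarith
  linarith

/-- The information grows by the entropy of the rows. -/
theorem CSeq.sum (h : CSeq F w X M C c₀) {R : ℕ → Type} (V : (j : ℕ) → F.Ω → R j) {c₁ : ℝ}
    (hV : ∀ j, j < M → CH F.p (V j) (C (j + 1)) ≤ c₁) :
    nfo F w (C 0) + ∑ j ∈ range M, CH F.p (V j) (fun ω => (C j ω, F.T1 (w + (j + 1) * X) ω)) ≤
      nfo F (w + M * X) (C M) + M * (c₀ + c₁) := by
  have key : ∀ k, k ≤ M → nfo F w (C 0) +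
      ∑ j ∈ range k, CH F.p (V j) (fun ω => (C j ω, F.T1 (w + (j + 1) * X) ω)) ≤
      nfo F (w + k * X) (C k) + k * (c₀ + c₁) := by
    intro k
    induction k with
    | zero =>
      intro _
      simp
    | succ k ih =>
      intro hk
      have h1 := ih (by omega)
      have h2 := h.step (show k < M by omega) (V k)
      have h3 := hV k (by omega)
      rw [sum_range_succ]
      push_cast
      linarith
  exact key M le_rfl

/-- One variable and the rows of all the windows. -/
theorem CSeq.mi (h : CSeq F w X M C c₀) {O : Type} (om : F.Ω → O) {R : ℕ → Type}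
    (V : (j : ℕ) → F.Ω → R j) {c₁ : ℝ} (hV : ∀ j, j < M → CH F.p (V j) (C (j + 1)) ≤ c₁) :
    ∑ j ∈ range M, dp F.p (V j) om (fun ω => (C j ω, F.T1 (w + (j + 1) * X) ω)) ≤
      CH F.p om (C 0) + M * (c₀ + c₁) := by
  have hp := F.isLaw.nonneg
  have key : ∀ k, k ≤ M → ∑ j ∈ range k,
      dp F.p (V j) om (fun ω => (C j ω, F.T1 (w + (j + 1) * X) ω)) ≤
      CH F.p om (C 0) - CH F.p om (C k) + k * (c₀ + c₁) := by
    intro k
    induction k with
    | zero =>
      intro _
      simp
    | succ k ih =>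
      intro hk
      have h1 := ih (by omega)
      have e : dp F.p (V k) om (fun ω => (C k ω, F.T1 (w + (k + 1) * X) ω)) =
        CH F.p om (fun ω => (C k ω, F.T1 (w + (k + 1) * X) ω)) -
        CH F.p om (fun ω => (V k ω, (C k ω, F.T1 (w + (k + 1) * X) ω))) := by
        rw [dp_symm hp]
        rfl
      have h2 : CH F.p om (fun ω => (C k ω, F.T1 (w + (k + 1) * X) ω)) ≤ CH F.p om (C k) :=
        CH_mono_cond hp fun _ _ _ _ e => (Prod.ext_iff.mp e).1
      -- the condition is nearly a function of the next context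
      have h3 : CH F.p om (C (k + 1)) ≤ CH F.p om (fun ω => (V k ω, (C k ω,
          F.T1 (w + (k + 1) * X) ω))) + (c₀ + c₁) := by
        have g1 := CH_le_add hp om (fun ω => (V k ω, (C k ω, F.T1 (w + (k + 1) * X) ω)))
          (C (k + 1))
        have g2 : CH F.p (fun ω => (V k ω, (C k ω, F.T1 (w + (k + 1) * X) ω))) (C (k + 1)) ≤
            c₀ + c₁ := by
          have g3 := CH_subadd hp (V k) (fun ω => (C k ω, F.T1 (w + (k + 1) * X) ω))
            (C (k + 1))
          have g4 : CH F.p (fun ω => (C k ω, F.T1 (w + (k + 1) * X) ω)) (C (k + 1)) ≤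
              CH F.p (C k) (C (k + 1)) := by
            refine CH_mono_left hp fun ω ω' hω hω' e => ?_
            have e1 := Prod.ext_iff.mp e
            exact Prod.ext e1.1 (h.T (k + 1) (by omega) ω ω' hω hω' e1.2)
          have g5 := h.nest k (by omega)
          have g6 := hV k (by omega)
          linarith
        have g7 : CH F.p om (fun ω => ((V k ω, (C k ω, F.T1 (w + (k + 1) * X) ω)),
            C (k + 1) ω)) ≤ CH F.p om (fun ω => (V k ω, (C k ω, F.T1 (w + (k + 1) * X) ω))) :=
          CH_mono_cond hp fun _ _ _ _ e => (Prod.ext_iff.mp e).1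
        linarith
      rw [sum_range_succ, e]
      push_cast
      linarith
  have h1 := key M le_rfl
  have h2 := CH_nonneg hp om (C M)
  linarith

end cseq

end Pool.PC
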