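import Pool.Agent.H73.PC.Bta

/-!
# Plan C: above the saturation of the frame: the sum over the levels, statement
-/

set_option autoImplicit false

namespace Pool.PC

open Finset Real
open Pool.Agent.H49.Ent Pool.Agent.H32.Dense Pool.STK Pool.KA Pool.KSAT Pool.K2S Pool.S6U

/-- The dependence of the next `X` digits of the time and of the line block of a level (precisions
at most `J`), in the cumulative context. -/
noncomputable def tik {J : ℕ} (F : Fam 2 J) (B : ℕ → Bx F) (wk l : ℕ → ℕ)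
    (z : ℕ → F.Ω → Fin 2 → ℝ) (X k w : ℕ) : ℝ :=
  Pool.OC.RS.mi F.p (F.T1 (w + X))
    (F.ctt w ((B k).q + X) (min (l k) (J - ((B k).q + X))) (B k).i0 (z k))
    (cum F B wk l z k w)

/-- **(KCH)** The sum over the levels which are closed at one window. -/
def KchStmt : Prop :=
  ∃ C : ℝ, 0 ≤ C ∧ ∀ (J : ℕ) (F : Fam 2 J) (M g s X : ℕ) (B : ℕ → Bx F) (N : ℕ → ℝ)
    (wk l : ℕ → ℕ) (z : ℕ → F.Ω → Fin 2 → ℝ) (w : ℕ), Chn F (fun _ => True) M g B N →
    (∀ k < M, wk k ≤ J → Cld F (B k) (wk k) (l k) (z k) ∧ (B k).q + l k ≤ (B k).n ∧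
      (B k).n ≤ (B k).q + l k + s) → X + s ≤ g → w + X ≤ J →
    ∑ k ∈ (range M).filter (fun k => wk k ≤ w ∧ (B k).q + w + X ≤ J), tik F B wk l z X k w ≤
      X * Real.log 2 + M * (C + 4 * s * Real.log 2)

end Pool.PC
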