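import Pool.Agent.H73.PC.Beta
import Pool.Agent.H34.PC.Kchw

/-!
# Plan C: `BETAStmt`
-/

set_option autoImplicit false

namespace Pool.PC

/-- **(BETA)**: above the saturation of the frame, to the top. -/
theorem beta_thm : BETAStmt := beta_of kch_stmt34

end Pool.PC
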