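import Pool.Agent.H73.PC.BStm
import Pool.Agent.H53.PC.Step
import Pool.Agent.H60.KS2.Ksat2

/-!
# Plan C: above the saturation of the frame: dependences of the line blocks, flat fans
-/

set_option autoImplicit false

namespace Pool.PC

open Finset Real
open Pool.Agent.H49.Ent Pool.Agent.H32.Dense Pool.STK Pool.KA Pool.KSAT Pool.K2S Pool.S6U

theorem mi_dp73 {Ω S T U : Type} [Fintype Ω] {p : Ω → ℝ} (hp : ∀ ω, 0 ≤ p ω) (A : Ω → S)
    (B : Ω → T) (b : Ω → U) : Pool.OC.RS.mi p A B b = dp p A B b := by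
  rw [Pool.OC.RS.mi_eq hp]
  rfl

section

variable {J : ℕ} {F : Fam 2 J} {B : ℕ → Bx F} {wk l : ℕ → ℕ} {z : ℕ → F.Ω → Fin 2 → ℝ}

theorem tik_nonneg (X k w : ℕ) : 0 ≤ tik F B wk l z X k w := by
  unfold tik
  rw [mi_dp73 F.isLaw.nonneg]
  exact dp_nonneg F.isLaw.nonneg _ _ _

/-- The base block is a part of the line block. -/
theorem tiB_le_tik {X k w : ℕ} (h : (B k).q + w + X ≤ J) (hz0 : ∀ ω, z k ω (B k).i0 = 0) :
    tiB F (B k).i0 (B k).q w X (cum F B wk l z k w) ≤ tik F B wk l z X k w := by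
  have hp := F.isLaw.nonneg
  unfold tik tiB
  rw [mi_dp73 hp]
  refine dp_mono hp (fun ω ω' _ _ e => (Prod.ext_iff.mp e).1) ?_
  intro ω ω' _ _ e
  have e1 := (Prod.ext_iff.mp e).1
  obtain ⟨h1, h2⟩ := ctt_cells (F := F) (w := w) (q := (B k).q + X) (by omega) hz0 e1
  have e2 : (B k).q + w + X = (B k).q + X + w := by ring
  rw [e2]
  exact Prod.ext h1 h2

/-- The line block of the progression. -/
theorem mi_ctx_le_tik {X k w : ℕ} (h : (B k).q + l k + w + X ≤ J)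
    (hz0 : ∀ ω, z k ω (B k).i0 = 0) :
    Pool.OC.RS.mi F.p (F.T1 (w + X)) (ctx F ((B k).q + X) (B k).i0 w (l k) (z k))
      (cum F B wk l z k w) ≤ tik F B wk l z X k w := by
  have hp := F.isLaw.nonneg
  unfold tik
  have e : min (l k) (J - ((B k).q + X)) = l k := min_eq_left (by omega)
  rw [e, mi_dp73 hp, mi_dp73 hp]
  refine dp_mono hp (fun ω ω' _ _ e => (Prod.ext_iff.mp e).1) ?_
  intro ω ω' _ _ e
  exact ctx_of_ctt (F := F) hz0 (by omega) (Prod.ext_iff.mp e).1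

/-- The cells of the velocity in the truncated context. -/
theorem ctt_vel73 {w q l : ℕ} {i0 : Fin 2} {z : F.Ω → Fin 2 → ℝ} (hq : q + w ≤ J)
    (hz0 : ∀ ω, z ω i0 = 0) {ω ω' : F.Ω} (h : F.ctt w q l i0 z ω = F.ctt w q l i0 z ω') :
    z ω = z ω' ∧ ⌊(2 : ℝ) ^ q * F.d ω i0⌋ = ⌊(2 : ℝ) ^ q * F.d ω' i0⌋ ∧
      ⌊(2 : ℝ) ^ (q + l) * (F.d ω (oth i0) - z ω (oth i0) * F.d ω i0)⌋ =
        ⌊(2 : ℝ) ^ (q + l) * (F.d ω' (oth i0) - z ω' (oth i0) * F.d ω' i0)⌋ := by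
  obtain ⟨-, h2, h3, h4, -⟩ := tlb_ext ((Jmp.ctt_tlb hq hz0 ω ω').1 h)
  refine ⟨h2, ?_, ?_⟩
  · have h6 : ⌊(2 : ℝ) ^ q * pco l i0 (z ω) (F.d ω) i0⌋ =
        ⌊(2 : ℝ) ^ q * pco l i0 (z ω') (F.d ω') i0⌋ := congrFun h4 i0
    unfold pco at h6
    rw [if_pos rfl, if_pos rfl] at h6
    exact h6
  · have h6 : ⌊(2 : ℝ) ^ q * pco l i0 (z ω) (F.d ω) (oth i0)⌋ =
        ⌊(2 : ℝ) ^ q * pco l i0 (z ω') (F.d ω') (oth i0)⌋ := congrFun h4 (oth i0)
    unfold pco at h6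
    rw [if_neg (Bet.oth_ne i0), if_neg (Bet.oth_ne i0), ← mul_assoc, ← mul_assoc,
      ← pow_add] at h6
    exact h6

/-- **The fans in the box are not flat**, given the exact point and the cumulative context. -/
theorem flat_k {c : Nm} {n : ℕ} {h del : ℝ} {k w s g : ℕ}
    (hok : ∀ j ≤ k, (B j).Ok (fun _ => True)) (hwk : wk k ≤ w) (hw : (B k).q + w ≤ J)
    (hc : ∀ j ≤ k, wk j ≤ J → Cld F (B j) (wk j) (l j) (z j) ∧ (B j).q + l j ≤ (B j).n)
    (hs : (B k).n ≤ (B k).q + l k + s) (hlv : Lvl F c n h B k) (hc1 : c.n < 1) (hdel : 0 < del)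
    (hh : h ≤ del ^ 2 / Real.exp ((k + 1 : ℕ) * cC)) (hg : ⌈h * J⌉₊ + s + 5 ≤ g) :
    Pool.KAF.Pr F.p {ω | ∃ α β γ : ℝ, α ^ 2 + β ^ 2 = 1 ∧
      del < Pool.KAF.Pr (Pool.Agent.H49.Ent.cond F.p
          (fun ω => (ptk B k ω, cum F B wk l z k w ω)) (ptk B k ω, cum F B wk l z k w ω))
        {v | |α * Int.fract (Bet.V F (B k).i0 (B k).q (l k) (z k) 0 v) +
          β * Int.fract (Bet.V F (B k).i0 (B k).q (l k) (z k) 1 v) - γ| ≤ 1 / 2 ^ g}} ≤ del := by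
  have hwJ : w ≤ J := by omega
  have hck := hc k le_rfl (hwk.trans hwJ)
  have hp := F.isLaw
  have htt := Pe_tt hp
  have hN := cum_cnt (A := fun _ => True) (B := B) (wk := wk) (l := l) (z := z) (k := k) (w := w)
    hwJ (fun j hj _ => hok j hj) (fun j hj hjw => hc j hj (hjw.trans hwJ))
  have key := exa2ks (F := F) (A := fun _ => True) (by rw [htt]; exact one_pos) (B k)
    (P := ptk B k) (fun ω => (ptk B k ω, cum F B wk l z k w ω))
    (fun ω ω' _ _ e => clab_det le_rfl (congrArg Prod.snd e)) hN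
    (z := fun ω => z k ω (oth (B k).i0))
    (c0 := fun ω => (⌊(2 : ℝ) ^ (B k).q * F.d ω (B k).i0⌋ : ℝ))
    (c1 := fun ω => (⌊(2 : ℝ) ^ ((B k).q + l k) *
      (F.d ω (oth (B k).i0) - z k ω (oth (B k).i0) * F.d ω (B k).i0)⌋ : ℝ))
    (by
      intro ω ω' hω hω' e
      have e1 : cum F B wk l z k w ω = cum F B wk l z k w ω' := (Prod.ext_iff.mp e).2
      have e2 := cum_det_ctt (F := F) (B := B) (wk := wk) (l := l) (z := z) le_rfl hwk ω ω' hω.1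
        hω'.1 e1
      obtain ⟨h1, h2, h3⟩ := ctt_vel73 hw hck.1.z0 e2
      have h4 : z k ω (oth (B k).i0) = z k ω' (oth (B k).i0) := by rw [h1]
      refine Prod.ext h4 (Prod.ext ?_ ?_)
      · show (⌊(2 : ℝ) ^ (B k).q * F.d ω (B k).i0⌋ : ℝ) = ⌊(2 : ℝ) ^ (B k).q * F.d ω' (B k).i0⌋
        rw [h2]
      · show (⌊(2 : ℝ) ^ ((B k).q + l k) *
          (F.d ω (oth (B k).i0) - z k ω (oth (B k).i0) * F.d ω (B k).i0)⌋ : ℝ) =
          ⌊(2 : ℝ) ^ ((B k).q + l k) *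
          (F.d ω' (oth (B k).i0) - z k ω' (oth (B k).i0) * F.d ω' (B k).i0)⌋
        rw [h3])
    (C0 := 4) (l := l k) (s := s) (C := 5) (h := ⌈h * J⌉₊) (g := g)
    (fun ω hω => hck.1.near ω hω.1) hck.2 hs (by norm_num) (by omega) (δ := del) hdel
    (by
      intro E _ hE
      rw [htt, mul_one] at hE
      exact hlv.ex hc1 E (hh.trans hE))
    (fun i v => Int.fract (Bet.V F (B k).i0 (B k).q (l k) (z k) i v))
    (by
      intro ω _
      show Int.fract (Bet.V F (B k).i0 (B k).q (l k) (z k) 0 ω) = _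
      rw [Bet.V_zero]
      rfl)
    (by
      intro ω _
      show Int.fract (Bet.V F (B k).i0 (B k).q (l k) (z k) 1 ω) = _
      rw [Bet.V_one]
      rfl)
  rw [cond_tt hp] at key
  exact key

end

end Pool.PC
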