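import Mathlib

/-!
# Plan C: above the saturation of the frame, the sum of the losses
-/

set_option autoImplicit false

namespace Pool.PC

theorem num_loss {ε del ι μ ξ x₁ h J K L M cM ck C₁ Ck tS R X s : ℝ} (hε : 0 < ε) (hμ : 0 < μ)
    (hdel : μ ≤ del) (hι : μ ≤ ι) (hμ1 : μ ≤ 1) (hξ : 0 < ξ) (hξ1 : ξ ≤ 1) (hξε : ξ ≤ ε / 100)
    (hξι : ξ ≤ ι * ε / 100) (hx₁ : x₁ ≤ ε * μ * ξ / 2000) (hh0 : 0 ≤ h)
    (hh : h ≤ x₁) (hJ : 0 ≤ J) (hK : 0 ≤ K) (hL0 : 0 ≤ L) (hL1 : L ≤ 1)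
    (hM : 100 / (ε * μ) ≤ M) (hck0 : 0 ≤ ck) (hck : ck ≤ cM) (hC₁ : 0 ≤ C₁) (hCk : 0 ≤ Ck)
    (htS0 : 0 ≤ tS) (htS : tS ≤ J * L / M + R * (Ck + 4 * s * L)) (hR0 : 0 ≤ R)
    (hR : R ≤ 2 / ξ) (hX0 : 0 ≤ X) (hX : X ≤ ξ * J) (hs0 : 0 ≤ s) (hs : s ≤ 4 * x₁ * J + 1)
    (hJ₀ : 2 * (3 * cM + 15 * K + 2 / ξ * (2 * cM + C₁) + 1 / μ * (2 + 2 / ξ * cM) +
      3 / μ * (2 / ξ * (Ck + 4)) + 1) / ε ≤ J) :
    3 * ck + (ε / 10 * J * L + 12 * L * ((2 * (ε / 1000) + h) * J + K) + 2 * L / del * tS +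
      R * (ck + C₁)) + (ε / 10 * J * L + 3 * L * ((2 * (ε / 1000) + h) * J + K) + L / ι * tS +
      L / ι * ((X + 2) * L + R * ck) + R * ck) + (5 * X + (s + h * J)) * L ≤ ε * J := by
  have hdel0 : 0 < del := lt_of_lt_of_le hμ hdel
  have hι0 : 0 < ι := lt_of_lt_of_le hμ hι
  have hM0 : 0 < M := lt_of_lt_of_le (by positivity) hM
  have hξi : 0 < 2 / ξ := by positivity
  have hxε : x₁ ≤ ε / 2000 := by
    refine hx₁.trans ?_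
    have h1 : ε * μ * ξ ≤ ε * 1 * 1 := by gcongr
    linarith
  have hhε : h ≤ ε / 2000 := hh.trans hxε
  -- the dependences
  have a1 : J * L / M ≤ ε * μ / 100 * J := by
    have h1 : 1 / M ≤ ε * μ / 100 := by
      rw [div_le_iff₀ hM0]
      rw [div_le_iff₀ (by positivity)] at hM
      linarith
    calc J * L / M = J * L * (1 / M) := by ring
      _ ≤ J * 1 * (ε * μ / 100) := by gcongr
      _ = ε * μ / 100 * J := by ring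
  have a2 : R * (Ck + 4 * s * L) ≤ 2 / ξ * (Ck + 4) + 2 / ξ * (16 * x₁ * J) := by
    have h1 : Ck + 4 * s * L ≤ (Ck + 4) + 16 * x₁ * J := by
      have : 4 * s * L ≤ 4 * s * 1 := by gcongr
      linarith
    have h2 : 0 ≤ Ck + 4 * s * L := by positivity
    calc R * (Ck + 4 * s * L) ≤ 2 / ξ * ((Ck + 4) + 16 * x₁ * J) := by gcongr
      _ = _ := by ring
  have a3 : 2 / ξ * (16 * x₁ * J) ≤ μ * (16 * ε / 1000) * J := by
    have h1 : x₁ / ξ ≤ ε * μ / 2000 := by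
      rw [div_le_iff₀ hξ]
      linarith
    calc 2 / ξ * (16 * x₁ * J) = 32 * (x₁ / ξ) * J := by ring
      _ ≤ 32 * (ε * μ / 2000) * J := by gcongr
      _ = μ * (16 * ε / 1000) * J := by ring
  have a4 : tS ≤ μ * (26 * ε / 1000 * J) + 2 / ξ * (Ck + 4) := by linarith
  obtain ⟨c4, hc4⟩ : ∃ c4, c4 = 2 / ξ * (Ck + 4) := ⟨_, rfl⟩
  have hc40 : 0 ≤ c4 := by rw [hc4]; positivity
  rw [← hc4] at a4
  have a5 : 1 / μ * tS ≤ 26 * ε / 1000 * J + 1 / μ * c4 := by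
    calc 1 / μ * tS ≤ 1 / μ * (μ * (26 * ε / 1000 * J) + c4) := by gcongr
      _ = 26 * ε / 1000 * J + 1 / μ * c4 := by field_simp
  have idel : 1 / del ≤ 1 / μ := one_div_le_one_div_of_le hμ hdel
  have iι : 1 / ι ≤ 1 / μ := one_div_le_one_div_of_le hμ hι
  have a6 : 2 * L / del * tS ≤ 2 * (26 * ε / 1000 * J + 1 / μ * c4) := by
    calc 2 * L / del * tS = 2 * L * (1 / del * tS) := by ring
      _ ≤ 2 * 1 * (1 / μ * tS) := by gcongr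
      _ ≤ 2 * 1 * (26 * ε / 1000 * J + 1 / μ * c4) := by gcongr
      _ = _ := by ring
  have a7 : L / ι * tS ≤ 26 * ε / 1000 * J + 1 / μ * c4 := by
    calc L / ι * tS = L * (1 / ι * tS) := by ring
      _ ≤ 1 * (1 / μ * tS) := by gcongr
      _ ≤ 1 * (26 * ε / 1000 * J + 1 / μ * c4) := by gcongr
      _ = _ := by ring
  -- the times
  have b1 : L * ((2 * (ε / 1000) + h) * J + K) ≤ 5 * ε / 2000 * J + K := by
    calc L * ((2 * (ε / 1000) + h) * J + K) ≤ 1 * ((2 * (ε / 1000) + ε / 2000) * J + K) := by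
          gcongr
      _ = _ := by ring
  -- the rest
  have d1 : L / ι * ((X + 2) * L + R * ck) ≤ ε / 100 * J + 1 / μ * (2 + 2 / ξ * cM) := by
    have h1 : ξ / ι ≤ ε / 100 := by
      rw [div_le_iff₀ hι0]
      linarith
    have h2 : (X + 2) * L + R * ck ≤ ξ * J + (2 + 2 / ξ * cM) := by
      have h3 : (X + 2) * L ≤ (ξ * J + 2) * 1 := by gcongr
      have h4 : R * ck ≤ 2 / ξ * cM := by gcongr
      linarith
    calc L / ι * ((X + 2) * L + R * ck) = L * (1 / ι * ((X + 2) * L + R * ck)) := by ring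
      _ ≤ 1 * (1 / ι * (ξ * J + (2 + 2 / ξ * cM))) := by gcongr
      _ = ξ / ι * J + 1 / ι * (2 + 2 / ξ * cM) := by ring
      _ ≤ ε / 100 * J + 1 / μ * (2 + 2 / ξ * cM) := by
          have : 0 ≤ cM := hck0.trans hck
          gcongr
  have d2 : R * (ck + C₁) + R * ck ≤ 2 / ξ * (2 * cM + C₁) := by
    calc R * (ck + C₁) + R * ck = R * (2 * ck + C₁) := by ring
      _ ≤ 2 / ξ * (2 * cM + C₁) := by gcongr
  have d3 : (5 * X + (s + h * J)) * L ≤ (ε / 20 + 5 * ε / 2000) * J + 1 := by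
    have h1 : h * J ≤ ε / 2000 * J := by gcongr
    have h2 : x₁ * J ≤ ε / 2000 * J := by gcongr
    have h3 : ξ * J ≤ ε / 100 * J := by gcongr
    calc (5 * X + (s + h * J)) * L ≤ (5 * X + (s + h * J)) * 1 := by gcongr
      _ ≤ _ := by linarith
  have d4 : ε / 10 * J * L ≤ ε / 10 * J := by
    calc ε / 10 * J * L ≤ ε / 10 * J * 1 := by gcongr
      _ = _ := by ring
  have hfin := hJ₀
  rw [div_le_iff₀ hε, ← hc4] at hfin
  have e1 : 3 / μ * c4 = 2 * (1 / μ * c4) + 1 / μ * c4 := by ring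
  rw [e1] at hfin
  have hεJ : 0 ≤ ε * J := by positivity
  linarith

/-- The length of the progression. -/
theorem nb_R {ξ : ℝ} {J X : ℕ} (hξ : 0 < ξ) (hJ : 1 ≤ J) (h2 : ξ * J ≤ 2 * X) :
    ((J / X : ℕ) : ℝ) ≤ 2 / ξ := by
  rw [le_div_iff₀ hξ]
  have h1 : ((J / X : ℕ) : ℝ) * X ≤ J := by
    have := Nat.div_mul_le_self J X
    exact_mod_cast this
  by_contra hcon
  push Not at hcon
  have hJp : (0 : ℝ) < J := by exact_mod_cast hJ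
  have h3 : 2 * (J : ℝ) < (J / X : ℕ) * ξ * J := mul_lt_mul_of_pos_right hcon hJp
  have h4 : ((J / X : ℕ) : ℝ) * (ξ * J) ≤ (J / X : ℕ) * (2 * X) :=
    mul_le_mul_of_nonneg_left h2 (Nat.cast_nonneg _)
  linarith

/-- The flat scale. -/
theorem nb_flat {h x₁ μ ξ del : ℝ} {J X s : ℕ} (hh0 : 0 ≤ h) (hhx : h ≤ x₁)
    (hx₁b : x₁ ≤ μ * ξ / 8) (j2 : 30 ≤ μ * ξ * J) (hs2 : (s : ℝ) ≤ 4 * x₁ * J + 1)
    (hX2 : ξ * J - 1 < X) (hμ1 : μ ≤ 1) (hμdel : μ ≤ del) (hdel : 0 < del)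
    (j1 : 4 ≤ ξ * J) : ((⌈h * J⌉₊ + s + 5 : ℕ) : ℝ) ≤ del * X := by
  have hJ0 : (0 : ℝ) ≤ J := Nat.cast_nonneg J
  have h1 := Nat.ceil_lt_add_one (a := h * (J : ℝ)) (by positivity)
  have hhJ : h * J ≤ x₁ * J := mul_le_mul_of_nonneg_right hhx hJ0
  have hx₁J : x₁ * J ≤ μ * ξ * J / 8 := by
    have := mul_le_mul_of_nonneg_right hx₁b hJ0
    linarith
  push_cast
  have h3 : 0 ≤ ξ * J - 1 := by linarith
  have h4 : μ * (ξ * J - 1) ≤ del * (ξ * J - 1) := mul_le_mul_of_nonneg_right hμdel h3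
  have h5 : del * (ξ * J - 1) ≤ del * X := mul_le_mul_of_nonneg_left hX2.le hdel.le
  linarith

/-- The gap. -/
theorem nb_gap {g ξ x₁ : ℝ} {J X s : ℕ} (hξg : ξ ≤ g / 4) (hx₁c : x₁ ≤ g / 16)
    (j4 : 4 ≤ g * J) (hX1 : (X : ℝ) ≤ ξ * J) (hs2 : (s : ℝ) ≤ 4 * x₁ * J + 1) :
    X + s ≤ ⌊g * J⌋₊ := by
  have hJ0 : (0 : ℝ) ≤ J := Nat.cast_nonneg J
  have h1 := Nat.lt_floor_add_one (g * (J : ℝ))
  have h3 := mul_le_mul_of_nonneg_right hξg hJ0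
  have h4 := mul_le_mul_of_nonneg_right hx₁c hJ0
  have h5 : ((X + s : ℕ) : ℝ) < ((⌊g * J⌋₊ + 1 : ℕ) : ℝ) := by
    push_cast
    linarith
  have h6 : X + s < ⌊g * J⌋₊ + 1 := by exact_mod_cast h5
  omega

/-- The defect of the frame. -/
theorem nb_s {a b h x : ℝ} {J q n l s : ℕ} (hq : |(q : ℝ) - a * J| ≤ h * J)
    (hn : |(n : ℝ) - b * J| ≤ h * J) (hl : (b - a - 2 * x) * J ≤ l)
    (hs : (2 * x + 2 * h) * J ≤ (s : ℝ)) : n ≤ q + l + s := by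
  have h4 := abs_le.1 hq
  have h5 := abs_le.1 hn
  have h6 : (n : ℝ) ≤ ((q + l + s : ℕ) : ℝ) := by
    push_cast
    linarith [h4.1, h5.2]
  exact_mod_cast h6

theorem nb_hX {h x₁ μ ξ : ℝ} {J X : ℕ} (hhx : h ≤ x₁) (hx₁b : x₁ ≤ μ * ξ / 8) (hμ1 : μ ≤ 1)
    (hξ : 0 ≤ ξ) (hX2 : ξ * J - 1 < X) (j1 : 4 ≤ ξ * J) : 4 * (h * J) ≤ X := by
  have hJ0 : (0 : ℝ) ≤ J := Nat.cast_nonneg J
  have h0 : μ * ξ ≤ 1 * ξ := mul_le_mul_of_nonneg_right hμ1 hξ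
  have h1 : h * J ≤ ξ / 8 * J := mul_le_mul_of_nonneg_right (by linarith) hJ0
  linarith

/-- The activity. -/
theorem nb_act {δ κ ξ h cM ck L : ℝ} {J X n : ℕ} (hδ : 0 < δ) (hκ : 0 < κ) (hκ1 : κ ≤ 1)
    (hξ : 0 < ξ) (hL : 0 < L) (hn : 1 ≤ n) (hn₀ : 8 / (κ * ξ) ≤ (n : ℝ))
    (hhκ : h ≤ δ * κ * ξ / 8) (hX2 : ξ * J - 1 < X)
    (j3 : 2 * (3 / 2 * δ + cM / L) ≤ δ * κ * ξ * J) (hck : ck ≤ cM) :
    δ / 4 * ⌊κ * X⌋₊ * L ≤ (δ * (⌊κ * X⌋₊ - J / n) - h * J) * L - ck := by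
  have hJ0 : (0 : ℝ) ≤ J := Nat.cast_nonneg J
  have hnr : (0 : ℝ) < n := by exact_mod_cast hn
  have hy1 : κ * X - 1 < (⌊κ * X⌋₊ : ℝ) := by
    have := Nat.lt_floor_add_one (κ * (X : ℝ))
    linarith
  have h1 : (J : ℝ) / n ≤ κ * ξ * J / 8 := by
    rw [div_le_iff₀ (by positivity)] at hn₀
    rw [div_le_iff₀ hnr]
    have := mul_le_mul_of_nonneg_right hn₀ hJ0
    linarith
  have h2 : h * J ≤ δ * κ * ξ * J / 8 := by
    have := mul_le_mul_of_nonneg_right hhκ hJ0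
    linarith
  have h3 : κ * ξ * J - 2 ≤ (⌊κ * X⌋₊ : ℝ) := by
    have h4 := mul_le_mul_of_nonneg_left hX2.le hκ.le
    linarith
  have h4 : ck ≤ cM / L * L := by
    rw [div_mul_cancel₀ _ hL.ne']
    exact hck
  have h5 : δ / 4 * (⌊κ * X⌋₊ : ℝ) ≤ δ * (⌊κ * X⌋₊ - J / n) - h * J - cM / L := by
    have h6 := mul_le_mul_of_nonneg_left h3 hδ.le
    have h7 := mul_le_mul_of_nonneg_left h1 hδ.le
    linarith
  have h6 := mul_le_mul_of_nonneg_right h5 hL.le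
  linarith

end Pool.PC
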