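import Pool.Agent.H73.PC.Level
import Pool.Agent.H73.PC.Num

/-!
# Plan C: above the saturation of the frame: `BETAStmt` from the sum over the levels
-/

set_option autoImplicit false

namespace Pool.PC

open Finset Real
open Pool.Agent.H49.Ent Pool.Agent.H32.Dense Pool.STK Pool.KA Pool.KSAT Pool.K2S Pool.S6U

section

variable {J : ℕ} {F : Fam 2 J} {B : ℕ → Bx F} {wk l : ℕ → ℕ} {z : ℕ → F.Ω → Fin 2 → ℝ}

theorem tiS_nonneg (X k : ℕ) : 0 ≤ tiS F B wk l z X k := by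
  unfold tiS
  refine Finset.sum_nonneg fun i _ => ?_
  split_ifs
  · exact tik_nonneg _ _ _
  · exact le_rfl

/-- **One level**: from all windows to the top. -/
theorem level_k {K g s X k n : ℕ} {ε del C₁ η h δ κ ϖ ι : ℝ} {XB XT : ℕ} {c : Nm}
    (hBL : BLin K ε del XB C₁) (hTL : TLin ε (δ / 4) κ ϖ K ι XT) (hdel : 0 < del)
    (hC₁ : 0 ≤ C₁) (hε : 0 ≤ ε) (hι : 0 < ι) (hϖ : 0 < ϖ) (hδ : 0 < δ) (hκ : 0 < κ)
    (hκ1 : κ ≤ 1 / 4) (hok : ∀ j ≤ k, (B j).Ok (fun _ => True))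
    (hc : ∀ j ≤ k, wk j ≤ J → Cld F (B j) (wk j) (l j) (z j) ∧ (B j).q + l j ≤ (B j).n)
    (hs : (B k).n ≤ (B k).q + l k + s) (hlv : Lvl F c n h B k) (hcOk : c.Ok δ) (hn : 1 ≤ n)
    (hJ1 : 1 ≤ J) (hh : h ≤ del ^ 2 / Real.exp ((k + 1 : ℕ) * cC))
    (hg : ⌈h * J⌉₊ + s + 5 ≤ g) (hgX : (g : ℝ) ≤ del * X) (hXB : XB ≤ X) (hXT : XT ≤ X)
    (hX : 1 ≤ X) (hTim : Tim F K η h) (hη : 0 ≤ η) (hh0 : 0 ≤ h) (hh1 : h ≤ 1) (hhϖ : h ≤ ϖ)
    (hhX : 4 * (h * J) ≤ X)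
    (hact : δ / 4 * ⌊κ * X⌋₊ * Real.log 2 ≤
      (δ * (⌊κ * X⌋₊ - J / n) - h * J) * Real.log 2 - (k + 1 : ℕ) * cC) {w : ℕ}
    (hwk : wk k ≤ w) (hw : (B k).q + w ≤ J) :
    nfo F w (cum F B wk l z k w) + (2 * (J * Real.log 2) - cVol J w (B k).q (l k)) ≤
      nfo F (J - (B k).q) (cum F B wk l z k (J - (B k).q)) +
      (3 * ((k + 1 : ℕ) * cC) + (ε * J * Real.log 2 +
          12 * Real.log 2 * ((2 * η + h) * J + K) + 2 * Real.log 2 / del * tiS F B wk l z X k +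
          (J / X : ℕ) * ((k + 1 : ℕ) * cC + C₁)) +
        (ε * J * Real.log 2 + 3 * Real.log 2 * ((2 * η + h) * J + K) +
          Real.log 2 / ι * tiS F B wk l z X k +
          Real.log 2 / ι * ((X + 2) * Real.log 2 + (J / X : ℕ) * ((k + 1 : ℕ) * cC)) +
          (J / X : ℕ) * ((k + 1 : ℕ) * cC)) + (5 * X + (s + h * J)) * Real.log 2) := by
  have hl2 : 0 < Real.log 2 := Real.log_pos (by norm_num)
  have htS : 0 ≤ tiS F B wk l z X k := tiS_nonneg _ _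
  have hcc : 0 ≤ ((k + 1 : ℕ) : ℝ) * cC := mul_nonneg (Nat.cast_nonneg _) cC_nonneg
  have hr : (0 : ℝ) ≤ s + h * J := by positivity
  refine prog_ar (N := fun v => nfo F v (cum F B wk l z k v)) hl2.le hX hw hcc ?_ ?_ hr ?_ ?_ ?_
  · have h1 : 0 ≤ ((k + 1 : ℕ) : ℝ) * cC + C₁ := add_nonneg hcc hC₁
    have h2 : (0 : ℝ) ≤ (J / X : ℕ) := Nat.cast_nonneg _
    positivity
  · have h2 : (0 : ℝ) ≤ (J / X : ℕ) := Nat.cast_nonneg _
    positivity
  · intro v v' hv hvv hv'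
    exact cum_nfo (hwk.trans hv) hvv (by omega) fun j hj hjv => (hc j hj (by omega)).1
  · by_cases hc1 : c.n < 1
    · left
      intro a m haw haJ
      exact be_k hBL hdel hC₁ hε hok hc hs hlv hc1 hh hg hgX hXB hX hTim hη hh0 hh1 hwk haw haJ
    · right
      have h1 := (abs_le.1 hlv.hn).1
      have h2 : ((B k).n : ℝ) ≤ (B k).q + l k + s := by exact_mod_cast hs
      have h3 := not_lt.1 hc1
      have h4 : (J : ℝ) ≤ c.n * J := by
        have : (0 : ℝ) ≤ J := Nat.cast_nonneg J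
        nlinarith
      linarith
  · intro a m haw haJ
    exact tp_k hTL hι hϖ hε hδ hκ hκ1 hok hc hlv hcOk hn hJ1 hhϖ hhX hact hXT hX hTim hη hh0 hh1
      hwk haw haJ

/-- The pigeonhole over the levels. -/
theorem pig_k {M X : ℕ} {T : ℝ} (hM : 1 ≤ M) (hX : 1 ≤ X)
    (h : ∀ w, w + X ≤ J → ∑ k ∈ (range M).filter (fun k => wk k ≤ w ∧ (B k).q + w + X ≤ J),
      tik F B wk l z X k w ≤ X * Real.log 2 + M * T) :
    ∃ k < M, tiS F B wk l z X k ≤ J * Real.log 2 / M + (J / X : ℕ) * T := by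
  have hl2 : 0 < Real.log 2 := Real.log_pos (by norm_num)
  have hMr : (0 : ℝ) < M := by exact_mod_cast hM
  by_contra hcon
  push Not at hcon
  have h1 : ∑ k ∈ range M, (J * Real.log 2 / M + (J / X : ℕ) * T) <
      ∑ k ∈ range M, tiS F B wk l z X k :=
    Finset.sum_lt_sum_of_nonempty (by rw [Finset.nonempty_range_iff]; omega)
      fun k hk => hcon k (Finset.mem_range.1 hk)
  rw [Finset.sum_const, Finset.card_range, nsmul_eq_mul] at h1
  have h2 : ∑ k ∈ range M, tiS F B wk l z X k ≤ (J / X : ℕ) * (X * Real.log 2 + M * T) := by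
    unfold tiS
    rw [Finset.sum_comm]
    have h3 : ∀ i ∈ range (J / X), ∑ k ∈ range M,
        (if wk k ≤ i * X ∧ (B k).q + i * X + X ≤ J then tik F B wk l z X k (i * X) else 0) ≤
        X * Real.log 2 + M * T := by
      intro i hi
      rw [← Finset.sum_filter]
      refine h (i * X) ?_
      rw [Finset.mem_range, Nat.lt_div_iff_mul_lt (by omega)] at hi
      omega
    refine (Finset.sum_le_sum h3).trans ?_
    rw [Finset.sum_const, Finset.card_range, nsmul_eq_mul]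
  have h4 : ((J / X : ℕ) : ℝ) * X ≤ J := by
    have := Nat.div_mul_le_self J X
    exact_mod_cast this
  have h5 := mul_le_mul_of_nonneg_right h4 hl2.le
  have h6 : (M : ℝ) * (J * Real.log 2 / M + (J / X : ℕ) * T) =
      J * Real.log 2 + (J / X : ℕ) * (M * T) := by
    field_simp
  rw [h6] at h1
  nlinarith

end

/-- **(BETA)** from the sum over the levels. -/
theorem beta_of (hK : KchStmt) : BETAStmt := by
  intro ε hε δ hδ
  obtain ⟨Ck, hCk, hKch⟩ := hK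
  have hl2 : 0 < Real.log 2 := Real.log_pos (by norm_num)
  have hl1 : Real.log 2 ≤ 1 := by
    have := Real.log_two_lt_d9
    linarith
  obtain ⟨κ, hκd⟩ : ∃ κ : ℝ, κ = min (ε / 80) (1 / 4) := ⟨_, rfl⟩
  have hκ : 0 < κ := by rw [hκd]; exact lt_min (by positivity) (by norm_num)
  have hκ1 : κ ≤ 1 / 4 := by rw [hκd]; exact min_le_right _ _
  have hκ2 : κ ≤ ε / 80 := by rw [hκd]; exact min_le_left _ _
  obtain ⟨ϖ, hϖ, hT⟩ := tlin (ε / 10) (δ / 4) κ (by positivity) (by positivity) hκ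
    (by linarith) (by linarith)
  refine ⟨ε / 1000, by positivity, fun K => ?_⟩
  obtain ⟨ι, XT, hι, hTL⟩ := hT K
  obtain ⟨del, XB, C₁, hdel, hC₁, hBL⟩ := blin K (ε / 10) (by positivity)
  obtain ⟨μ, hμd⟩ : ∃ μ : ℝ, μ = min (min del ι) 1 := ⟨_, rfl⟩
  have hμ : 0 < μ := by rw [hμd]; exact lt_min (lt_min hdel hι) one_pos
  have hμdel : μ ≤ del := by rw [hμd]; exact (min_le_left _ _).trans (min_le_left _ _)
  have hμι : μ ≤ ι := by rw [hμd]; exact (min_le_left _ _).trans (min_le_right _ _)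
  have hμ1 : μ ≤ 1 := by rw [hμd]; exact min_le_right _ _
  obtain ⟨M, hMd⟩ : ∃ M : ℕ, M = ⌈100 / (ε * μ)⌉₊ + 1 := ⟨_, rfl⟩
  have hM1 : 1 ≤ M := by omega
  have hM : 100 / (ε * μ) ≤ (M : ℝ) := by
    rw [hMd]
    push_cast
    have := Nat.le_ceil (100 / (ε * μ))
    linarith
  refine ⟨M, hM1, fun g hg c hcOk => ?_⟩
  obtain ⟨ξ, hξd⟩ : ∃ ξ : ℝ, ξ = min (min (g / 4) 1) (min (ε / 100) (ι * ε / 100)) := ⟨_, rfl⟩
  have hξ : 0 < ξ := by
    rw [hξd]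
    exact lt_min (lt_min (by positivity) one_pos) (lt_min (by positivity) (by positivity))
  have hξg : ξ ≤ g / 4 := by rw [hξd]; exact (min_le_left _ _).trans (min_le_left _ _)
  have hξ1 : ξ ≤ 1 := by rw [hξd]; exact (min_le_left _ _).trans (min_le_right _ _)
  have hξε : ξ ≤ ε / 100 := by rw [hξd]; exact (min_le_right _ _).trans (min_le_left _ _)
  have hξι : ξ ≤ ι * ε / 100 := by rw [hξd]; exact (min_le_right _ _).trans (min_le_right _ _)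
  obtain ⟨x₁, hx₁d⟩ : ∃ x₁ : ℝ, x₁ = min (ε * μ * ξ / 2000) (min (μ * ξ / 8) (g / 16)) :=
    ⟨_, rfl⟩
  have hx₁ : 0 < x₁ := by
    rw [hx₁d]
    exact lt_min (by positivity) (lt_min (by positivity) (by positivity))
  have hx₁a : x₁ ≤ ε * μ * ξ / 2000 := by rw [hx₁d]; exact min_le_left _ _
  have hx₁b : x₁ ≤ μ * ξ / 8 := by rw [hx₁d]; exact (min_le_right _ _).trans (min_le_left _ _)
  have hx₁c : x₁ ≤ g / 16 := by rw [hx₁d]; exact (min_le_right _ _).trans (min_le_right _ _)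
  refine ⟨x₁, hx₁, fun x hx hxx => ?_⟩
  obtain ⟨n₀, hn₀d⟩ : ∃ n₀ : ℕ, n₀ = ⌈8 / (κ * ξ)⌉₊ + 1 := ⟨_, rfl⟩
  refine ⟨n₀, by omega, fun n hn hdvd => ?_⟩
  have hnr : (0 : ℝ) < n := by exact_mod_cast hn
  have hn₀ : 8 / (κ * ξ) ≤ (n : ℝ) := by
    have h1 : n₀ ≤ n := Nat.le_of_dvd (by omega) hdvd
    have h2 : (n₀ : ℝ) ≤ n := by exact_mod_cast h1
    have h3 := Nat.le_ceil (8 / (κ * ξ))
    rw [hn₀d] at h2
    push_cast at h2
    linarith
  obtain ⟨cM, hcMd⟩ : ∃ cM : ℝ, cM = M * cC := ⟨_, rfl⟩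
  have hcM : 0 ≤ cM := by rw [hcMd]; exact mul_nonneg (Nat.cast_nonneg _) cC_nonneg
  obtain ⟨h, hhd⟩ : ∃ h : ℝ, h = min (min ϖ (del ^ 2 / Real.exp cM))
    (min x₁ (min (δ * κ * ξ / 8) 1)) := ⟨_, rfl⟩
  have hh0 : 0 < h := by
    rw [hhd]
    exact lt_min (lt_min hϖ (by positivity)) (lt_min hx₁ (lt_min (by positivity) one_pos))
  have hhϖ : h ≤ ϖ := by rw [hhd]; exact (min_le_left _ _).trans (min_le_left _ _)
  have hhe : h ≤ del ^ 2 / Real.exp cM := by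
    rw [hhd]; exact (min_le_left _ _).trans (min_le_right _ _)
  have hhx : h ≤ x₁ := by rw [hhd]; exact (min_le_right _ _).trans (min_le_left _ _)
  have hhκ : h ≤ δ * κ * ξ / 8 := by
    rw [hhd]; exact (min_le_right _ _).trans ((min_le_right _ _).trans (min_le_left _ _))
  have hh1 : h ≤ 1 := by
    rw [hhd]; exact (min_le_right _ _).trans ((min_le_right _ _).trans (min_le_right _ _))
  obtain ⟨r1, hr1⟩ : ∃ r : ℝ, r = (XB + XT + 4) / ξ := ⟨_, rfl⟩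
  obtain ⟨r2, hr2⟩ : ∃ r : ℝ, r = 30 / (μ * ξ) := ⟨_, rfl⟩
  obtain ⟨r3, hr3⟩ : ∃ r : ℝ, r = 2 * (3 / 2 * δ + cM / Real.log 2) / (δ * κ * ξ) := ⟨_, rfl⟩
  obtain ⟨r4, hr4⟩ : ∃ r : ℝ, r = 4 / g := ⟨_, rfl⟩
  obtain ⟨r5, hr5⟩ : ∃ r : ℝ, r = 2 * (3 * cM + 15 * K + 2 / ξ * (2 * cM + C₁) +
    1 / μ * (2 + 2 / ξ * cM) + 3 / μ * (2 / ξ * (Ck + 4)) + 1) / ε := ⟨_, rfl⟩
  have hr1' : 0 ≤ r1 := by rw [hr1]; positivity
  have hr2' : 0 ≤ r2 := by rw [hr2]; positivity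
  have hr3' : 0 ≤ r3 := by rw [hr3]; positivity
  have hr4' : 0 ≤ r4 := by rw [hr4]; positivity
  have hr5' : 0 ≤ r5 := by rw [hr5]; positivity
  refine ⟨h, hh0, ⌈r1 + r2 + r3 + r4 + r5 + 1⌉₊, fun J hJ F B N hD wk l z hlev => ?_⟩
  have hJr : r1 + r2 + r3 + r4 + r5 + 1 ≤ (J : ℝ) := by
    have h1 : ((⌈r1 + r2 + r3 + r4 + r5 + 1⌉₊ : ℕ) : ℝ) ≤ J := by exact_mod_cast hJ
    exact (Nat.le_ceil _).trans h1
  have hJ1 : 1 ≤ J := by
    have : (1 : ℝ) ≤ J := by linarith only [hJr, hr1', hr2', hr3', hr4', hr5']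
    exact_mod_cast this
  have hJ0 : (0 : ℝ) ≤ J := Nat.cast_nonneg J
  -- the step of the progression
  have j1 : (XB : ℝ) + XT + 4 ≤ ξ * J := by
    have h1 : r1 ≤ J := by linarith only [hJr, hr1', hr2', hr3', hr4', hr5']
    rw [hr1, div_le_iff₀ hξ] at h1
    linarith only [h1]
  have j2 : 30 ≤ μ * ξ * J := by
    have h1 : r2 ≤ J := by linarith only [hJr, hr1', hr2', hr3', hr4', hr5']
    rw [hr2, div_le_iff₀ (by positivity)] at h1
    linarith only [h1]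
  have j3 : 2 * (3 / 2 * δ + cM / Real.log 2) ≤ δ * κ * ξ * J := by
    have h1 : r3 ≤ J := by linarith only [hJr, hr1', hr2', hr3', hr4', hr5']
    rw [hr3, div_le_iff₀ (by positivity)] at h1
    linarith only [h1]
  have j4 : 4 ≤ g * J := by
    have h1 : r4 ≤ J := by linarith only [hJr, hr1', hr2', hr3', hr4', hr5']
    rw [hr4, div_le_iff₀ hg] at h1
    linarith only [h1]
  have j5 : r5 ≤ J := by linarith only [hJr, hr1', hr2', hr3', hr4', hr5']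
  clear hJr hJ hr1' hr2' hr3' hr4' hr5' hr1 hr2 hr3 hr4
  have hXBr : (0 : ℝ) ≤ XB := Nat.cast_nonneg _
  have hXTr : (0 : ℝ) ≤ XT := Nat.cast_nonneg _
  obtain ⟨X, hXd⟩ : ∃ X : ℕ, X = ⌊ξ * J⌋₊ := ⟨_, rfl⟩
  have hX1 : (X : ℝ) ≤ ξ * J := by rw [hXd]; exact Nat.floor_le (by positivity)
  have hX2 : ξ * J - 1 < X := by
    have := Nat.lt_floor_add_one (ξ * J)
    rw [← hXd] at this
    linarith only [this]
  have hXB : XB ≤ X := by
    have : (XB : ℝ) ≤ X := by linarith only [hX2, j1, hXTr]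
    exact_mod_cast this
  have hXT : XT ≤ X := by
    have : (XT : ℝ) ≤ X := by linarith only [hX2, j1, hXBr]
    exact_mod_cast this
  have hX : 1 ≤ X := by
    have : (1 : ℝ) ≤ X := by linarith only [hX2, j1, hXBr, hXTr]
    exact_mod_cast this
  have j6 : 4 ≤ ξ * J := by linarith only [j1, hXBr, hXTr]
  obtain ⟨s, hsd⟩ : ∃ s : ℕ, s = ⌈(2 * x + 2 * h) * J⌉₊ := ⟨_, rfl⟩
  have hs1 : (2 * x + 2 * h) * J ≤ (s : ℝ) := by rw [hsd]; exact Nat.le_ceil _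
  have hs2 : (s : ℝ) ≤ 4 * x₁ * J + 1 := by
    have h1 := Nat.ceil_lt_add_one (a := (2 * x + 2 * h) * (J : ℝ)) (by positivity)
    rw [← hsd] at h1
    have h2 : (2 * x + 2 * h) * (J : ℝ) ≤ 4 * x₁ * J :=
      mul_le_mul_of_nonneg_right (by linarith only [hxx, hhx]) hJ0
    linarith only [h1, h2]
  -- the levels
  have hlv : ∀ k < M, wk k ≤ J → Cld F (B k) (wk k) (l k) (z k) ∧ (B k).q + l k ≤ (B k).n ∧
      (B k).n ≤ (B k).q + l k + s := by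
    intro k hk hkJ
    obtain ⟨h1, h2, h3⟩ := hlev k hk hkJ
    exact ⟨h1, h2, nb_s (hD.lvl k hk).hq (hD.lvl k hk).hn h3 hs1⟩
  have hgJ := nb_gap hξg hx₁c j4 hX1 hs2
  obtain ⟨k, hk, hkS⟩ := pig_k (F := F) (B := B) (wk := wk) (l := l) (z := z) (M := M) (X := X)
    (T := Ck + 4 * s * Real.log 2) hM1 hX
    (fun w hw => hKch J F M ⌊g * J⌋₊ s X B N wk l z w hD.chn hlv hgJ hw)
  refine ⟨k, hk, fun w hwk hw => ?_⟩
  have hk1 : ((k + 1 : ℕ) : ℝ) ≤ M := by exact_mod_cast hk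
  have hck : ((k + 1 : ℕ) : ℝ) * cC ≤ cM := by
    rw [hcMd]
    exact mul_le_mul_of_nonneg_right hk1 cC_nonneg
  have hck0 : 0 ≤ ((k + 1 : ℕ) : ℝ) * cC := mul_nonneg (Nat.cast_nonneg _) cC_nonneg
  have key := level_k (B := B) (wk := wk) (l := l) (z := z) (k := k) (s := s)
    (g := ⌈h * J⌉₊ + s + 5) hBL hTL hdel hC₁ (by positivity) hι hϖ hδ hκ hκ1
    (fun j hj => hD.chn.ok j (lt_of_le_of_lt hj hk))
    (fun j hj hjJ => ⟨(hlv j (lt_of_le_of_lt hj hk) hjJ).1,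
      (hlv j (lt_of_le_of_lt hj hk) hjJ).2.1⟩)
    (hlv k hk (hwk.trans ((Nat.le_add_left _ _).trans hw))).2.2 (hD.lvl k hk) (hcOk k hk) hn hJ1
    (hhe.trans (div_le_div_of_nonneg_left (by positivity) (Real.exp_pos _)
      (Real.exp_le_exp.2 hck)))
    le_rfl (nb_flat hh0.le hhx hx₁b j2 hs2 hX2 hμ1 hμdel hdel j6) hXB hXT hX hD.tim
    (by positivity) hh0.le hh1 hhϖ
    (nb_hX hhx hx₁b hμ1 hξ.le hX2 j6)
    (nb_act hδ hκ (hκ1.trans (by norm_num)) hξ hl2 hn hn₀ hhκ hX2 j3 hck)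
    hwk hw
  have htS : 0 ≤ tiS F B wk l z X k := tiS_nonneg _ _
  have hR := nb_R (J := J) (X := X) hξ hJ1 (by linarith only [hX2, j6])
  rw [hr5] at j5
  have hnum := num_loss (ε := ε) (del := del) (ι := ι) (μ := μ) (ξ := ξ) (x₁ := x₁) (h := h)
    (J := J) (K := K) (L := Real.log 2) (M := M) (cM := cM) (ck := (k + 1 : ℕ) * cC) (C₁ := C₁)
    (Ck := Ck) (tS := tiS F B wk l z X k) (R := (J / X : ℕ)) (X := X) (s := s) hε hμ hμdel hμι
    hμ1 hξ hξ1 hξε hξι hx₁a hh0.le hhx hJ0 (Nat.cast_nonneg _) hl2.le hl1 hM hck0 hck hC₁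
    hCk htS hkS (Nat.cast_nonneg _) hR (Nat.cast_nonneg _) hX1 (Nat.cast_nonneg _) hs2 j5
  linarith only [key, hnum]

end Pool.PC
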