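import Pool.Agent.H73.PC.Seq
import Pool.Agent.H78.PC.Wf
import Pool.Agent.H40.PC.Time

/-!
# Plan C: the top: contexts with complete normal position

The base row of the position is full in most windows of a chain of contexts.
-/

set_option autoImplicit false

namespace Pool.PC

open Finset Real
open Pool.Agent.H49.Ent Pool.Agent.H32.Dense Pool.STK Pool.KA Pool.KSAT Pool.K2S Pool.S6U Pool.WF
open Pool.OCG (nr nr_nonneg)

/-- The covector of the coordinate `i0`. -/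
def e1 {m : ℕ} (i0 j : Fin m) : ℝ := if j = i0 then 1 else 0

theorem lc_e1 {m : ℕ} (k : ℕ) (i0 : Fin m) (x : Fin m → ℝ) :
    lc k (e1 i0) x = ⌊(2 : ℝ) ^ k * x i0⌋ := by
  unfold lc e1
  simp

/-- The dependence of the time block and of the line block of the base coordinate. -/
noncomputable def tiB {m J : ℕ} (F : Fam m J) (i0 : Fin m) (q w X : ℕ) {S : Type} (C : F.Ω → S) :
    ℝ :=
  dp F.p (F.T1 (w + X)) (fun ω => (⌊(2 : ℝ) ^ (q + w + X) * F.x1 w ω i0⌋,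
    ⌊(2 : ℝ) ^ (q + X) * F.d ω i0⌋)) C

/-- The near samples of a window. -/
theorem dn_eq {m J : ℕ} (F : Fam m J) {w i k' : ℕ} (h : w + i + k' ≤ J) :
    dn F F.p k' (w + i) = nr F.p (slam F w) (F.wt w) k' i := by
  rw [nr_slam F F.isLaw.nonneg h]
  unfold dn
  congr 1
  ext x
  simp only [Set.mem_ofPred_eq, abs_sub_comm]

/-- The time number of the window `[w, w + X)`. -/
noncomputable def tmn {m J : ℕ} (F : Fam m J) (k' X w : ℕ) : ℝ :=
  ∑ i ∈ range X, nr F.p (slam F w) (F.wt w) k' i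

theorem tmn_nonneg {m J : ℕ} (F : Fam m J) (k' X w : ℕ) : 0 ≤ tmn F k' X w :=
  Finset.sum_nonneg fun _ _ => nr_nonneg F.isLaw.nonneg _ _ _ _

theorem dn_sum {m J : ℕ} (F : Fam m J) {w X k' : ℕ} (hJ : w + X ≤ J) :
    ∑ v ∈ (Ico w (w + X)).filter (fun v => v + k' ≤ w + X), dn F F.p k' v ≤ tmn F k' X w := by
  have h1 : ∑ v ∈ (Ico w (w + X)).filter (fun v => v + k' ≤ w + X), dn F F.p k' v ≤
      ∑ v ∈ (Ico w (w + X)).filter (fun v => v + k' ≤ w + X),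
        nr F.p (slam F w) (F.wt w) k' (v - w) := by
    refine Finset.sum_le_sum fun v hv => ?_
    rw [mem_filter, mem_Ico] at hv
    have e : v = w + (v - w) := by omega
    rw [← dn_eq F (w := w) (i := v - w) (k' := k') (by omega), ← e]
  refine h1.trans ?_
  have h2 : ∑ v ∈ (Ico w (w + X)).filter (fun v => v + k' ≤ w + X),
      nr F.p (slam F w) (F.wt w) k' (v - w) ≤
      ∑ v ∈ Ico w (w + X), nr F.p (slam F w) (F.wt w) k' (v - w) :=
    Finset.sum_le_sum_of_subset_of_nonneg (Finset.filter_subset _ _)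
      fun v _ _ => nr_nonneg F.isLaw.nonneg _ _ _ _
  refine h2.trans (le_of_eq ?_)
  rw [Finset.sum_Ico_eq_sum_range]
  unfold tmn
  have e : w + X - w = X := by omega
  rw [e]
  refine Finset.sum_congr rfl fun i _ => ?_
  have e2 : w + i - w = i := by omega
  rw [e2]

/-- **One row at the top.** -/
theorem top_row (ε ca κ : ℝ) (hε : 0 < ε) (hca : 0 < ca) (hκ : 0 < κ) (hκ1 : κ ≤ 1)
    (h8κ : 8 * κ ≤ ε) : ∃ ϖ : ℝ, 0 < ϖ ∧ ∀ k' : ℕ, ∃ (ι : ℝ) (X₀ : ℕ), 0 < ι ∧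
    ∀ (m J : ℕ) (F : Fam m J) (S : Type) (C : F.Ω → S) (i0 : Fin m) (w q X : ℕ),
      w + X ≤ J → X₀ ≤ X → 1 ≤ X → Det F.p (slam F w) C → Det F.p C (F.T1 w) →
      Det F.p C (fun ω => ⌊(2 : ℝ) ^ (q + w) * F.x1 w ω i0⌋) →
      Det F.p C (fun ω => ⌊(2 : ℝ) ^ q * F.d ω i0⌋) →
      (∀ E : F.Ω → Prop, ϖ ≤ Pe F.p E → ca * ⌊κ * X⌋₊ * Real.log 2 ≤
        CH (Pool.Agent.H49.Ent.cond F.p E True)
          (fun ω => ⌊(2 : ℝ) ^ (q + ⌊κ * X⌋₊) * F.d ω i0⌋) C) →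
      (1 - ε) * X * Real.log 2 - (3 * Real.log 2 * tmn F k' X w +
          Real.log 2 / ι * (tiB F i0 q w X C +
          dp F.p (fun ω => ⌊(2 : ℝ) ^ (q + w + X) * F.x1 (w + X) ω i0⌋)
            (fun ω => ⌊(2 : ℝ) ^ (q + X) * F.d ω i0⌋) (fun ω => (C ω, F.T1 (w + X) ω)))) ≤
        CH F.p (fun ω => ⌊(2 : ℝ) ^ (q + w + X) * F.x1 (w + X) ω i0⌋)
          (fun ω => (C ω, F.T1 (w + X) ω)) := by
  obtain ⟨ϖ, hϖ, hB⟩ := w_fam ε ca κ hε hca hκ hκ1 h8κ
  refine ⟨ϖ, hϖ, fun k' => ?_⟩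
  obtain ⟨ι, X₀, hι, hB⟩ := hB k'
  refine ⟨ι, X₀, hι, ?_⟩
  intro m J F S C i0 w q X hwJ hX hX1 hdet hT hpos hvel hact
  have hp0 := F.isLaw.nonneg
  have hl2 : 0 < Real.log 2 := Real.log_pos (by norm_num)
  have hXr : (0 : ℝ) < X := by exact_mod_cast hX1
  obtain ⟨a, ha⟩ : ∃ a, a = tiB F i0 q w X C := ⟨_, rfl⟩
  obtain ⟨b, hb⟩ : ∃ b, b = dp F.p (fun ω => ⌊(2 : ℝ) ^ (q + w + X) * F.x1 (w + X) ω i0⌋)
    (fun ω => ⌊(2 : ℝ) ^ (q + X) * F.d ω i0⌋) (fun ω => (C ω, F.T1 (w + X) ω)) := ⟨_, rfl⟩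
  obtain ⟨g, hg⟩ : ∃ g, g = CH F.p (fun ω => ⌊(2 : ℝ) ^ (q + w + X) * F.x1 (w + X) ω i0⌋)
    (fun ω => (C ω, F.T1 (w + X) ω)) := ⟨_, rfl⟩
  obtain ⟨D, hD⟩ : ∃ D, D = tmn F k' X w := ⟨_, rfl⟩
  have ha0 : 0 ≤ a := by rw [ha]; exact dp_nonneg hp0 _ _ _
  have hb0 : 0 ≤ b := by rw [hb]; exact dp_nonneg hp0 _ _ _
  have hg0 : 0 ≤ g := by rw [hg]; exact CH_nonneg hp0 _ _
  have hD0 : 0 ≤ D := by
    rw [hD]
    exact tmn_nonneg F k' X w
  rw [← ha, ← hb, ← hg, ← hD]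
  by_cases hcase : a ≤ ι * X ∧ b ≤ ι * X
  · obtain ⟨hca', hcb'⟩ := hcase
    have key := hB m J F F.p S C (fun _ => e1 i0) w q X (w + X) (D / X) F.isLaw le_rfl hwJ hX
      (by
        intro ω ω' hω hω' e
        have e2 := hpos ω ω' hω hω' e
        have e3 := hvel ω ω' hω hω' e
        have e4 := hT ω ω' hω hω' e
        simp only [lc_e1]
        exact Prod.ext (Prod.ext e4 rfl) (Prod.ext e2 e3)) hdet
      (by
        simp only [lc_e1]
        rw [ha] at hca'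
        exact hca')
      (by
        simp only [lc_e1]
        rw [hb] at hcb'
        exact hcb')
      (by
        rw [div_mul_cancel₀ _ hXr.ne', hD]
        exact dn_sum F hwJ)
      (by
        intro E hE
        have := hact E hE
        simp only [lc_e1]
        exact this)
    simp only [lc_e1] at key
    rw [← hg] at key
    have e : (1 - ε - 3 * (D / X)) * (X : ℝ) * Real.log 2 =
        (1 - ε) * X * Real.log 2 - 3 * Real.log 2 * D := by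
      field_simp
    rw [e] at key
    have h1 : 0 ≤ Real.log 2 / ι * (a + b) := by positivity
    linarith
  · have h1 : ι * X ≤ a + b := by
      by_contra hcon
      exact hcase ⟨by linarith [not_le.1 hcon], by linarith [not_le.1 hcon]⟩
    have h2 : Real.log 2 / ι * (ι * X) ≤ Real.log 2 / ι * (a + b) :=
      mul_le_mul_of_nonneg_left h1 (by positivity)
    have h3 : Real.log 2 / ι * (ι * X) = X * Real.log 2 := by
      field_simp
    rw [h3] at h2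
    have h4 : (1 - ε) * X * Real.log 2 ≤ X * Real.log 2 := by
      have : 0 ≤ ε * (X * Real.log 2) := by positivity
      linarith
    have h5 : 0 ≤ 3 * Real.log 2 * D := by positivity
    linarith

/-- **The top.** -/
theorem top_seq (ε ca κ : ℝ) (hε : 0 < ε) (hca : 0 < ca) (hκ : 0 < κ) (hκ1 : κ ≤ 1)
    (h8κ : 8 * κ ≤ ε) : ∃ ϖ : ℝ, 0 < ϖ ∧ ∀ k' : ℕ, ∃ (ι : ℝ) (X₀ : ℕ), 0 < ι ∧
    ∀ (m J : ℕ) (F : Fam m J) (S : ℕ → Type) (C : (j : ℕ) → F.Ω → S j) (i0 : Fin m)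
      (w q X M : ℕ) (c₀ : ℝ), CSeq F w X M C c₀ → X₀ ≤ X → 1 ≤ X →
      (∀ j, j ≤ M → Det F.p (C j)
        (fun ω => ⌊(2 : ℝ) ^ (q + (w + j * X)) * F.x1 (w + j * X) ω i0⌋)) →
      (∀ j, j ≤ M → Det F.p (C j) (fun ω => ⌊(2 : ℝ) ^ q * F.d ω i0⌋)) →
      (∀ j, j < M → ∀ E : F.Ω → Prop, ϖ ≤ Pe F.p E → ca * ⌊κ * X⌋₊ * Real.log 2 ≤
        CH (Pool.Agent.H49.Ent.cond F.p E True)
          (fun ω => ⌊(2 : ℝ) ^ (q + ⌊κ * X⌋₊) * F.d ω i0⌋) (C j)) →
      nfo F w (C 0) + M * X * Real.log 2 - (ε * (M * X) * Real.log 2 +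
        3 * Real.log 2 * ∑ j ∈ range M, tmn F k' X (w + j * X) +
        Real.log 2 / ι * (∑ j ∈ range M, tiB F i0 q (w + j * X) X (C j)) +
        Real.log 2 / ι * ((X + 2) * Real.log 2 + M * c₀) + M * c₀) ≤
        nfo F (w + M * X) (C M) := by
  obtain ⟨ϖ, hϖ, hB⟩ := top_row ε ca κ hε hca hκ hκ1 h8κ
  refine ⟨ϖ, hϖ, fun k' => ?_⟩
  obtain ⟨ι, X₀, hι, hB⟩ := hB k'
  refine ⟨ι, X₀, hι, ?_⟩
  intro m J F S C i0 w q X M c₀ hC hX hX1 hpos hvel hact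
  have hp0 := F.isLaw.nonneg
  have hl2 : 0 < Real.log 2 := Real.log_pos (by norm_num)
  obtain ⟨V, hV⟩ : ∃ V : (j : ℕ) → F.Ω → ℤ, V = fun j ω =>
    ⌊(2 : ℝ) ^ (q + (w + (j + 1) * X)) * F.x1 (w + (j + 1) * X) ω i0⌋ := ⟨_, rfl⟩
  obtain ⟨om, hom⟩ : ∃ om : F.Ω → ℤ, om = fun ω => ⌊(2 : ℝ) ^ (q + X) * F.d ω i0⌋ := ⟨_, rfl⟩
  have hV0 : ∀ j, j < M → CH F.p (V j) (C (j + 1)) ≤ 0 := by
    intro j hj
    have h1 := hpos (j + 1) hj
    have h2 : Det F.p (C (j + 1)) (V j) := by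
      rw [hV]
      exact h1
    exact (CH_eq_zero hp0 h2).le
  have hsum := hC.sum V hV0
  have hmi := hC.mi om V hV0
  rw [add_zero] at hsum hmi
  have hom0 : CH F.p om (C 0) ≤ (X + 2) * Real.log 2 := by
    have h1 := CH_int F.isLaw om (C 0) (c := 2 ^ X + 1) (by
      intro ω ω' hω hω' e
      have e2 := Plk.abs_sub_lt_of_floor (hvel 0 (Nat.zero_le _) ω ω' hω hω' e)
      have e3 : |(2 : ℝ) ^ (q + X) * F.d ω i0 - 2 ^ (q + X) * F.d ω' i0| ≤ 2 ^ X := by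
        have e4 : (2 : ℝ) ^ (q + X) * F.d ω i0 - 2 ^ (q + X) * F.d ω' i0 =
            2 ^ X * (2 ^ q * F.d ω i0 - 2 ^ q * F.d ω' i0) := by ring
        rw [e4, abs_mul, abs_of_pos (by positivity : (0 : ℝ) < 2 ^ X)]
        exact mul_le_of_le_one_right (by positivity) e2
      have f1 := Int.floor_le ((2 : ℝ) ^ (q + X) * F.d ω i0)
      have f2 := Int.lt_floor_add_one ((2 : ℝ) ^ (q + X) * F.d ω i0)
      have f3 := Int.floor_le ((2 : ℝ) ^ (q + X) * F.d ω' i0)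
      have f4 := Int.lt_floor_add_one ((2 : ℝ) ^ (q + X) * F.d ω' i0)
      have f5 := abs_le.1 e3
      rw [hom]
      push_cast
      rw [abs_le]
      constructor <;> linarith [f5.1, f5.2])
    refine h1.trans ?_
    have h2 : ((X : ℝ) + 2) * Real.log 2 = Real.log (2 ^ (X + 2)) := by
      rw [Real.log_pow]
      push_cast
      ring
    rw [h2]
    have h3 : (2 : ℝ) ^ 1 ≤ 2 ^ X := pow_le_pow_right₀ (by norm_num) hX1
    have h4 : (2 : ℝ) ^ (X + 2) = 4 * 2 ^ X := by ring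
    refine Real.log_le_log (by positivity) ?_
    rw [h4]
    linarith
  -- one window
  have hone : ∀ j, j < M → (1 - ε) * X * Real.log 2 - (3 * Real.log 2 *
      tmn F k' X (w + j * X) + Real.log 2 / ι * (tiB F i0 q (w + j * X) X (C j) +
      dp F.p (V j) om (fun ω => (C j ω, F.T1 (w + (j + 1) * X) ω)))) ≤
      CH F.p (V j) (fun ω => (C j ω, F.T1 (w + (j + 1) * X) ω)) := by
    intro j hj
    have h1 := hB m J F (S j) (C j) i0 (w + j * X) q X (by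
      have := hC.le (show j + 1 ≤ M by omega)
      rwa [CSeq.succ] at this) hX hX1 (hC.det j hj.le) (hC.T j hj.le) (hpos j hj.le)
      (hvel j hj.le) (hact j hj)
    have e1 : w + (j + 1) * X = w + j * X + X := CSeq.succ j
    have e2 : q + (w + j * X + X) = q + (w + j * X) + X := by ring
    rw [hV, hom]
    simp only [e1, e2]
    exact h1
  have hS : ∑ j ∈ range M, ((1 - ε) * X * Real.log 2 - (3 * Real.log 2 *
      tmn F k' X (w + j * X) + Real.log 2 / ι * (tiB F i0 q (w + j * X) X (C j) +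
      dp F.p (V j) om (fun ω => (C j ω, F.T1 (w + (j + 1) * X) ω))))) ≤
      ∑ j ∈ range M, CH F.p (V j) (fun ω => (C j ω, F.T1 (w + (j + 1) * X) ω)) :=
    Finset.sum_le_sum fun j hj => hone j (Finset.mem_range.1 hj)
  rw [Finset.sum_sub_distrib, Finset.sum_const, Finset.card_range, nsmul_eq_mul,
    Finset.sum_add_distrib, ← Finset.mul_sum, ← Finset.mul_sum, Finset.sum_add_distrib] at hS
  have hι' : 0 ≤ Real.log 2 / ι := by positivity
  have h2 := mul_le_mul_of_nonneg_left (hmi.trans (add_le_add_left hom0 _)) hι'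
  have e3 : (M : ℝ) * ((1 - ε) * X * Real.log 2) = M * X * Real.log 2 - ε * (M * X) * Real.log 2 := by
    ring
  rw [e3] at hS
  rw [mul_add (Real.log 2 / ι)] at hS
  linarith

end Pool.PC
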