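import Pool.Agent.H73.PC.Cum
import Pool.Agent.H73.PC.Top

/-!
# Plan C: above the saturation of the frame: the numbers of the times, activity in the cumulative
contexts
-/

set_option autoImplicit false

namespace Pool.PC

open Finset Real
open Pool.Agent.H49.Ent Pool.Agent.H32.Dense Pool.STK Pool.KA Pool.KSAT Pool.K2S Pool.S6U
open Pool.OCG (nr nr_nonneg nr_le_one)

/-! ### The certain event -/

theorem law_tt {Ω : Type} [Fintype Ω] {p : Ω → ℝ} (hp : IsLaw p) :
    law p (fun _ : Ω => True) True = 1 := by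
  unfold law
  simp only [if_true]
  exact hp.sum_one

theorem cond_tt {Ω : Type} [Fintype Ω] {p : Ω → ℝ} (hp : IsLaw p) :
    Pool.Agent.H49.Ent.cond p (fun _ => True) True = p := by
  funext ω
  unfold Pool.Agent.H49.Ent.cond
  rw [if_pos rfl, law_tt hp, div_one]

theorem Pe_tt {Ω : Type} [Fintype Ω] {p : Ω → ℝ} (hp : IsLaw p) : Pe p (fun _ => True) = 1 := by
  rw [Pe_eq]
  simp only [if_true]
  exact hp.sum_one

/-! ### The times -/

open Classical in
/-- The near samples of the window `v`. -/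
noncomputable def gn {J : ℕ} (F : Fam 2 J) (K v : ℕ) : ℝ :=
  if v + K ≤ J then Pool.KAF.Pr (dbl F.p (slam F v))
    {x | |(F.T x.1 : ℝ) - F.T x.2| < 2 ^ (J - (v + K))} else 1

theorem gn_nonneg {J : ℕ} (F : Fam 2 J) (K v : ℕ) : 0 ≤ gn F K v := by
  unfold gn
  split_ifs
  · exact Pool.OCG.Pr_nonneg' (fun w => glue_nonneg F.isLaw.nonneg F.isLaw.nonneg w) _
  · exact zero_le_one

theorem gn_le_one {J : ℕ} (F : Fam 2 J) (K v : ℕ) : gn F K v ≤ 1 := by
  unfold gn
  split_ifs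
  · exact Pool.KAF.Pr_le_one (Pool.OC.isLaw_dbl F.isLaw (slam F v)) _
  · exact le_rfl

theorem nr_gn {J : ℕ} (F : Fam 2 J) (K w i : ℕ) :
    nr F.p (slam F w) (F.wt w) K i ≤ gn F K (w + i) := by
  unfold gn
  by_cases h : w + i + K ≤ J
  · rw [if_pos h, nr_slam F F.isLaw.nonneg h]
  · rw [if_neg h]
    exact nr_le_one F.isLaw _ _ _ _

theorem tmn_gn {J : ℕ} (F : Fam 2 J) (K X w M : ℕ) :
    ∑ j ∈ range M, tmn F K X (w + j * X) ≤ ∑ v ∈ Ico w (w + M * X), gn F K v := by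
  induction M with
  | zero => simp
  | succ M ih =>
    rw [sum_range_succ]
    have h1 : w + (M + 1) * X = w + M * X + X := by ring
    rw [h1, ← Finset.sum_Ico_consecutive (gn F K) (show w ≤ w + M * X by omega)
      (show w + M * X ≤ w + M * X + X by omega)]
    refine add_le_add ih ?_
    rw [Finset.sum_Ico_eq_sum_range]
    have e : w + M * X + X - (w + M * X) = X := by omega
    rw [e]
    exact Finset.sum_le_sum fun i _ => nr_gn F K (w + M * X) i

/-- **The sum of the time numbers.** -/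
theorem tmn_sum {J : ℕ} (F : Fam 2 J) {K : ℕ} {η h : ℝ} (hT : Tim F K η h) (hη : 0 ≤ η)
    (hh0 : 0 ≤ h) (hh : h ≤ 1) {w X M : ℕ} (hJ : w + M * X ≤ J) :
    ∑ j ∈ range M, tmn F K X (w + j * X) ≤ (2 * η + h) * J + K := by
  have hp := F.isLaw
  have hJ0 : (0 : ℝ) ≤ J := Nat.cast_nonneg J
  have hK0 : (0 : ℝ) ≤ K := Nat.cast_nonneg K
  refine (tmn_gn F K X w M).trans ?_
  have h1 : ∑ v ∈ Ico w (w + M * X), gn F K v ≤ ∑ v ∈ Ico 0 J, gn F K v := by
    refine Finset.sum_le_sum_of_subset_of_nonneg ?_ fun v _ _ => gn_nonneg F K v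
    intro v hv
    rw [mem_Ico] at hv ⊢
    omega
  refine h1.trans ?_
  by_cases hKJ : K ≤ J
  · obtain ⟨D, hD0, hD1, hDs, hD⟩ := hT
    have h2 := hD (fun _ => True) (by rw [Pe_tt hp]; exact hh) 0 (J - K) (Nat.zero_le _)
      (by omega)
    rw [cond_tt hp, Pe_tt hp, div_one] at h2
    rw [← Finset.sum_Ico_consecutive (gn F K) (Nat.zero_le (J - K)) (Nat.sub_le J K)]
    have h3 : ∑ v ∈ Ico 0 (J - K), gn F K v ≤ ∑ v ∈ Ico 0 (J - K),
        Pe (dbl F.p (slam F v)) (fun x => |(F.T x.1 : ℝ) - F.T x.2| < 2 ^ (J - (v + K))) := by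
      refine Finset.sum_le_sum fun v hv => ?_
      rw [mem_Ico] at hv
      unfold gn
      rw [if_pos (by omega)]
      exact le_of_eq rfl
    have h4 : ∑ v ∈ Ico (J - K) J, gn F K v ≤ K := by
      refine (Finset.sum_le_sum fun v _ => gn_le_one F K v).trans ?_
      rw [Finset.sum_const, Nat.card_Ico, nsmul_eq_mul, mul_one]
      have : J - (J - K) = K := by omega
      rw [this]
    have h5 : ∑ v ∈ Ico 0 (J - K), D v ≤ η * J := by
      refine le_trans ?_ hDs
      refine Finset.sum_le_sum_of_subset_of_nonneg ?_ fun v _ _ => hD0 v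
      intro v hv
      rw [mem_Ico] at hv
      rw [mem_range]
      omega
    have h6 : (((J - K : ℕ) : ℝ) - ((0 : ℕ) : ℝ)) ≤ J := by
      rw [Nat.cast_zero, sub_zero]
      exact_mod_cast Nat.sub_le J K
    have h7 := mul_le_mul_of_nonneg_left h6 hη
    linarith only [h2, h3, h4, h5, h7]
  · have h2 : ∑ v ∈ Ico 0 J, gn F K v ≤ J := by
      refine (Finset.sum_le_sum fun v _ => gn_le_one F K v).trans ?_
      rw [Finset.sum_const, Nat.card_Ico, nsmul_eq_mul, mul_one, Nat.sub_zero]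
    have h3 : (J : ℝ) ≤ K := by
      have : J ≤ K := by omega
      exact_mod_cast this
    have h4 : 0 ≤ (2 * η + h) * J := by positivity
    linarith only [h2, h3, h4]

/-! ### Activity -/

/-- **Activity in a context** which has a bounded entropy at the exact point. -/
theorem act_ctx {J : ℕ} {F : Fam 2 J} {B : ℕ → Bx F} {k n : ℕ} {c : Nm} {δ h C : ℝ}
    (hc : c.Ok δ) (hδ : 0 ≤ δ) (hl : Lvl F c n h B k) (hn : 1 ≤ n) (hJ : 1 ≤ J) {S : Type}
    (b : F.Ω → S) {y : ℕ} (hy : (B k).q + y ≤ J) (hy' : (y : ℝ) ≤ (1 - c.q) * J)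
    {E : F.Ω → Prop} (hE : h ≤ Pe F.p E) (hE0 : 0 < Pe F.p E)
    (hb : CH (Pool.Agent.H49.Ent.cond F.p E True) b (ptk B k) ≤ C) :
    (δ * (y - J / n) - h * J) * Real.log 2 - C ≤
      CH (Pool.Agent.H49.Ent.cond F.p E True)
        (fun ω => ⌊(2 : ℝ) ^ ((B k).q + y) * F.d ω (B k).i0⌋) b := by
  have hlaw := isLaw_cond F.isLaw hE0
  have hp0 := hlaw.nonneg
  have hJr : (0 : ℝ) < J := by exact_mod_cast hJ
  have hnr : (0 : ℝ) < n := by exact_mod_cast hn
  have hl2 : 0 < Real.log 2 := Real.log_pos (by norm_num)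
  obtain ⟨j, hj⟩ : ∃ j : ℕ, j = ⌊(y : ℝ) * n / J⌋₊ := ⟨_, rfl⟩
  have j1 : (j : ℝ) ≤ y * n / J := by
    rw [hj]
    exact Nat.floor_le (by positivity)
  have j2 : (y : ℝ) * n / J < j + 1 := by
    rw [hj]
    exact Nat.lt_floor_add_one _
  have hyJ : (y : ℝ) ≤ J := by
    have : y ≤ J := by omega
    exact_mod_cast this
  have j3 : (j : ℝ) / n ≤ y / J := by
    rw [div_le_div_iff₀ hnr hJr]
    rw [le_div_iff₀ hJr] at j1
    linarith only [j1]
  have j4 : (y : ℝ) / J - 1 / n ≤ j / n := by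
    rw [div_lt_iff₀ hJr] at j2
    rw [div_sub_div _ _ hJr.ne' hnr.ne', div_le_div_iff₀ (by positivity) hnr]
    nlinarith only [j2]
  have j5 : j ≤ n := by
    have h1 : (j : ℝ) ≤ n := by
      refine j1.trans ?_
      rw [div_le_iff₀ hJr]
      nlinarith only [hyJ]
    exact_mod_cast h1
  have j6 : msh J n j ≤ y := by
    unfold msh
    have h1 : (j : ℝ) / n * J ≤ y := by
      have := mul_le_mul_of_nonneg_right j3 hJr.le
      rwa [div_mul_cancel₀ _ hJr.ne'] at this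
    exact_mod_cast (Nat.floor_le (by positivity)).trans h1
  have j7 : msh J n 0 = 0 := by
    unfold msh
    simp
  have hac := hl.ac 0 j (Nat.zero_le _) j5 (by omega) E hE
  rw [j7, Nat.add_zero, Nat.cast_zero, zero_div, hc.a0, sub_zero] at hac
  have hact : δ * (j / n) ≤ c.act (j / n) := hc.ad _ (by positivity) (by
    refine j3.trans ?_
    rw [div_le_iff₀ hJr]
    exact hy')
  have h1 : (δ * (y - J / n) - h * J) * Real.log 2 ≤ (c.act (j / n) - h) * J * Real.log 2 := by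
    refine mul_le_mul_of_nonneg_right ?_ hl2.le
    have h2 := mul_le_mul_of_nonneg_left j4 (mul_nonneg hδ hJr.le)
    have h3 : δ * J * ((y : ℝ) / J - 1 / n) = δ * (y - J / n) := by
      field_simp
    have h4 := mul_le_mul_of_nonneg_right hact hJr.le
    have h5 : δ * (j / n) * J = δ * J * (j / n) := by ring
    nlinarith only [h2, h3, h4]
  have h2 : CH (Pool.Agent.H49.Ent.cond F.p E True)
      (fun ω => ⌊(2 : ℝ) ^ ((B k).q + msh J n j) * F.d ω (B k).i0⌋)
      (fun ω => (ptk B k ω, ⌊(2 : ℝ) ^ (B k).q * F.d ω (B k).i0⌋)) ≤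
      CH (Pool.Agent.H49.Ent.cond F.p E True)
      (fun ω => ⌊(2 : ℝ) ^ ((B k).q + y) * F.d ω (B k).i0⌋) (ptk B k) := by
    refine (CH_mono_left hp0 ?_).trans (CH_mono_cond hp0 fun _ _ _ _ e => (Prod.ext_iff.mp e).1)
    intro ω ω' _ _ e
    exact floor_down (by omega) (Prod.ext_iff.mp e).1
  have h3 := CH_le_add hp0 (fun ω => ⌊(2 : ℝ) ^ ((B k).q + y) * F.d ω (B k).i0⌋) b (ptk B k)
  have h4 : CH (Pool.Agent.H49.Ent.cond F.p E True)
      (fun ω => ⌊(2 : ℝ) ^ ((B k).q + y) * F.d ω (B k).i0⌋) (fun ω => (b ω, ptk B k ω)) ≤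
      CH (Pool.Agent.H49.Ent.cond F.p E True)
      (fun ω => ⌊(2 : ℝ) ^ ((B k).q + y) * F.d ω (B k).i0⌋) b :=
    CH_mono_cond hp0 fun _ _ _ _ e => (Prod.ext_iff.mp e).1
  linarith only [hb, hac, h1, h2, h3, h4]

end Pool.PC
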