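import Pool.Agent.H15.PC.Fam
import Pool.Agent.H34.PC.Exa
import Pool.Agent.H73.PC.Seq

/-!
# Plan C: the cumulative contexts

`cum F B wk l z k w` contains the contexts of all levels `j ≤ k` which are closed at the window
`w`. It is closed, nested in `w`, and it is known up to a bounded number of values from the exact
point and the labels of the boxes.
-/

set_option autoImplicit false

namespace Pool.PC

open Finset Real
open Pool.Agent.H49.Ent Pool.Agent.H32.Dense Pool.STK Pool.KA Pool.KSAT Pool.K2S Pool.S6U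

/-! ### Counts from entropies -/

section cnt

variable {m J : ℕ}

open Classical in
/-- The uniform law on a nonempty set. -/
noncomputable def unif {Ω : Type} (R : Finset Ω) (ω : Ω) : ℝ :=
  if ω ∈ R then 1 / (R.card : ℝ) else 0

theorem unif_pos {Ω : Type} {R : Finset Ω} {ω : Ω} (h : 0 < unif R ω) : ω ∈ R := by
  by_contra hcon
  unfold unif at h
  rw [if_neg hcon] at h
  exact lt_irrefl _ h

theorem isLaw_unif {Ω : Type} [Fintype Ω] {R : Finset Ω} (h : R.Nonempty) : IsLaw (unif R) := by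
  classical
  have hR : (0 : ℝ) < R.card := by exact_mod_cast h.card_pos
  constructor
  · intro ω
    unfold unif
    split_ifs
    · positivity
    · exact le_rfl
  · unfold unif
    rw [Finset.sum_ite_mem, Finset.univ_inter, Finset.sum_const, nsmul_eq_mul]
    field_simp

/-- If `P` is constant on `R`, and `W` is injective on `R`. -/
theorem CH_unif {Ω α β : Type} [Fintype Ω] {R : Finset Ω} (h : R.Nonempty) (P : Ω → α) (W : Ω → β)
    (hP : ∀ ω ∈ R, ∀ ω' ∈ R, P ω = P ω') (hW : ∀ ω ∈ R, ∀ ω' ∈ R, W ω = W ω' → ω = ω') :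
    CH (unif R) W P = Real.log R.card := by
  classical
  have hR : (0 : ℝ) < R.card := by exact_mod_cast h.card_pos
  have hlaw := isLaw_unif h
  have e1 : ∀ ω ∈ R, law (unif R) P (P ω) = 1 := by
    intro ω hω
    have h1 := hlaw.sum_one
    rw [← h1]
    unfold law
    refine Finset.sum_congr rfl fun ω' _ => ?_
    by_cases h2 : ω' ∈ R
    · rw [if_pos (hP ω' h2 ω hω)]
    · unfold unif
      rw [if_neg h2]
      split_ifs <;> rfl
  have e2 : ∀ ω ∈ R, law (unif R) (fun ω => (W ω, P ω)) (W ω, P ω) = 1 / R.card := by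
    intro ω hω
    unfold law
    rw [Finset.sum_eq_single ω]
    · unfold unif
      rw [if_pos rfl, if_pos hω]
    · intro ω' _ hne
      by_cases h2 : ω' ∈ R
      · rw [if_neg]
        intro h3
        exact hne (hW ω' h2 ω hω (Prod.ext_iff.mp h3).1)
      · unfold unif
        rw [if_neg h2]
        split_ifs <;> rfl
    · intro h3
      exact absurd (Finset.mem_univ ω) h3
  have e3 : H (unif R) P = 0 := by
    unfold H
    rw [neg_eq_zero]
    refine Finset.sum_eq_zero fun ω _ => ?_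
    by_cases h2 : ω ∈ R
    · rw [e1 ω h2, Real.log_one, mul_zero]
    · unfold unif
      rw [if_neg h2, zero_mul]
  have e4 : H (unif R) (fun ω => (W ω, P ω)) = Real.log R.card := by
    unfold H
    have h1 : ∀ ω, unif R ω * Real.log (law (unif R) (fun ω => (W ω, P ω)) (W ω, P ω)) =
        -(unif R ω * Real.log R.card) := by
      intro ω
      by_cases h2 : ω ∈ R
      · rw [e2 ω h2, one_div, Real.log_inv]
        ring
      · unfold unif
        rw [if_neg h2]
        ring
    rw [Finset.sum_congr rfl fun ω _ => h1 ω, Finset.sum_neg_distrib, neg_neg, ← Finset.sum_mul,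
      hlaw.sum_one, one_mul]
  unfold CH
  rw [e3, e4, sub_zero]

/-- A bound of the entropy for all laws on `A` is a bound of the number of values. -/
theorem cnt_of_CH {F : Fam m J} {A : F.Ω → Prop} {α β : Type} {P : F.Ω → α} {W : F.Ω → β} {C : ℝ}
    (h : ∀ p' : F.Ω → ℝ, IsLaw p' → (∀ ω, 0 < p' ω → On F A ω) → CH p' W P ≤ C) :
    Cnt F A P W (Real.exp C) := by
  classical
  intro ω₀ h₀
  obtain ⟨s, hs⟩ : ∃ s : Finset F.Ω, s = univ.filter fun ω => On F A ω ∧ P ω = P ω₀ := ⟨_, rfl⟩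
  have hms : ∀ ω, ω ∈ s ↔ On F A ω ∧ P ω = P ω₀ := by
    intro ω
    rw [hs, mem_filter]
    exact ⟨fun h => h.2, fun h => ⟨mem_univ _, h⟩⟩
  have h0s : ω₀ ∈ s := (hms ω₀).2 ⟨h₀, rfl⟩
  obtain ⟨rep, hrep⟩ : ∃ rep : β → F.Ω, ∀ x ∈ s.image W, rep x ∈ s ∧ W (rep x) = x := by
    refine ⟨fun x => if h : ∃ ω, ω ∈ s ∧ W ω = x then h.choose else ω₀, ?_⟩
    intro x hx
    have h1 : ∃ ω, ω ∈ s ∧ W ω = x := by
      obtain ⟨ω, h2, h3⟩ := Finset.mem_image.1 hx
      exact ⟨ω, h2, h3⟩
    dsimp only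
    rw [dif_pos h1]
    exact h1.choose_spec
  obtain ⟨R, hR⟩ : ∃ R : Finset F.Ω, R = (s.image W).image rep := ⟨_, rfl⟩
  have hRs : ∀ ω ∈ R, ω ∈ s := by
    intro ω hω
    rw [hR, Finset.mem_image] at hω
    obtain ⟨x, hx, rfl⟩ := hω
    exact (hrep x hx).1
  have hcard : R.card = (s.image W).card := by
    rw [hR]
    refine Finset.card_image_of_injOn ?_
    intro x hx y hy hxy
    have h1 := (hrep x hx).2
    have h2 := (hrep y hy).2
    have hxy' : rep x = rep y := hxy
    rw [hxy'] at h1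
    exact h1.symm.trans h2
  have hRne : R.Nonempty := by
    rw [← Finset.card_pos, hcard, Finset.card_pos]
    exact ⟨W ω₀, Finset.mem_image_of_mem W h0s⟩
  have h1 := h (unif R) (isLaw_unif hRne) (fun ω hω => ((hms ω).1 (hRs ω (unif_pos hω))).1)
  rw [CH_unif hRne P W (fun ω hω ω' hω' => by
    rw [((hms ω).1 (hRs ω hω)).2, ((hms ω').1 (hRs ω' hω')).2]) (by
    intro ω hω ω' hω' hww
    rw [hR, Finset.mem_image] at hω hω'
    obtain ⟨x, hx, rfl⟩ := hω
    obtain ⟨y, hy, rfl⟩ := hω'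
    have h2 := (hrep x hx).2
    have h3 := (hrep y hy).2
    rw [hww, h3] at h2
    rw [h2])] at h1
  have hpos : (0 : ℝ) < R.card := by exact_mod_cast hRne.card_pos
  have h2 : (R.card : ℝ) ≤ Real.exp C := by
    rw [← Real.exp_log hpos]
    exact Real.exp_le_exp.2 h1
  rw [hcard] at h2
  rw [← hs]
  exact h2

end cnt

/-! ### Entropies of finitely many variables -/

/-- The entropy of a sequence with finitely many nontrivial terms. -/
theorem CH_seq {Ω S T : Type} [Fintype Ω] {p : Ω → ℝ} (hp : IsLaw p) (W : Ω → T) (n : ℕ) :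
    ∀ f : Ω → ℕ → S, (∀ ω ω' j, n ≤ j → f ω j = f ω' j) →
      CH p f W ≤ ∑ j ∈ range n, CH p (fun ω => f ω j) W := by
  classical
  have hp0 := hp.nonneg
  induction n with
  | zero =>
    intro f hf
    rw [range_zero, sum_empty]
    have : Det p W f := fun ω ω' _ _ _ => funext fun j => hf ω ω' j (Nat.zero_le j)
    exact (CH_eq_zero hp0 this).le
  | succ n ih =>
    intro f hf
    obtain ⟨o₀, -⟩ : ∃ o : Ω, True := by
      by_contra hcon
      push Not at hcon
      have h1 := hp.sum_one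
      have h2 : ∑ ω, p ω = 0 := Finset.sum_eq_zero fun ω _ => (hcon ω).elim
      rw [h2] at h1
      norm_num at h1
    obtain ⟨f', hf'⟩ : ∃ f' : Ω → ℕ → S, f' = fun ω j => if j = n then f o₀ n else f ω j :=
      ⟨_, rfl⟩
    have h1 := ih f' (by
      intro ω ω' j hj
      rw [hf']
      dsimp only
      by_cases hjn : j = n
      · rw [if_pos hjn, if_pos hjn]
      · rw [if_neg hjn, if_neg hjn]
        exact hf ω ω' j (by omega))
    have h2 : CH p f W ≤ CH p (fun ω => (f' ω, f ω n)) W := by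
      refine CH_mono_left hp0 fun ω ω' _ _ e => ?_
      have e1 := Prod.ext_iff.mp (Prod.ext_iff.mp e).1
      funext j
      by_cases hjn : j = n
      · rw [hjn]
        exact e1.2
      · have e2 := congrFun e1.1 j
        rw [hf'] at e2
        dsimp only at e2
        rw [if_neg hjn, if_neg hjn] at e2
        exact e2
    have h3 := CH_subadd hp0 f' (fun ω => f ω n) W
    have h4 : ∑ j ∈ range n, CH p (fun ω => f' ω j) W = ∑ j ∈ range n, CH p (fun ω => f ω j) W := by
      refine Finset.sum_congr rfl fun j hj => ?_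
      have hjn : j ≠ n := (Finset.mem_range.1 hj).ne
      rw [hf']
      simp only [if_neg hjn]
    rw [sum_range_succ, ← h4]
    linarith

/-! ### The cumulative contexts -/

section cum

variable {J : ℕ} {F : Fam 2 J} {B : ℕ → Bx F} {wk l : ℕ → ℕ} {z : ℕ → F.Ω → Fin 2 → ℝ}

/-- The constant of the nested contexts. -/
noncomputable def cC : ℝ := 2 * Real.log 19 + 4 * Real.log 99

theorem cC_nonneg : 0 ≤ cC := by
  unfold cC
  have h1 : 0 ≤ Real.log 19 := Real.log_nonneg (by norm_num)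
  have h2 : 0 ≤ Real.log 99 := Real.log_nonneg (by norm_num)
  positivity

theorem cum_pos {k w j : ℕ} (hj : j ≤ k) (hw : wk j ≤ w) (ω : F.Ω) :
    cum F B wk l z k w ω j = some (F.ctt w (B j).q (l j) (B j).i0 (z j) ω) := if_pos ⟨hj, hw⟩

theorem cum_neg {k w j : ℕ} (hw : ¬ wk j ≤ w) (ω : F.Ω) :
    cum F B wk l z k w ω j = none := if_neg fun h => hw h.2

theorem cum_lt {k w j : ℕ} (hj : k + 1 ≤ j) (ω ω' : F.Ω) :
    cum F B wk l z k w ω j = cum F B wk l z k w ω' j := by
  unfold cum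
  rw [if_neg (by omega), if_neg (by omega)]

/-- The cumulative context determines the context of a closed level. -/
theorem cum_det_ctt {k w j : ℕ} (hj : j ≤ k) (hw : wk j ≤ w) :
    Det F.p (cum F B wk l z k w) (F.ctt w (B j).q (l j) (B j).i0 (z j)) := by
  intro ω ω' _ _ h
  have h1 := congrFun h j
  unfold cum at h1
  rw [if_pos ⟨hj, hw⟩, if_pos ⟨hj, hw⟩] at h1
  exact Option.some.inj h1

/-- The cumulative context of fewer levels. -/
theorem cum_mono {k k' w : ℕ} (hk : k ≤ k') (ω ω' : F.Ω)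
    (h : cum F B wk l z k' w ω = cum F B wk l z k' w ω') :
    cum F B wk l z k w ω = cum F B wk l z k w ω' := by
  funext j
  have h1 := congrFun h j
  unfold cum at h1 ⊢
  by_cases hj : j ≤ k ∧ wk j ≤ w
  · rw [if_pos hj, if_pos hj]
    rw [if_pos ⟨hj.1.trans hk, hj.2⟩, if_pos ⟨hj.1.trans hk, hj.2⟩] at h1
    exact h1
  · rw [if_neg hj, if_neg hj]

/-- The cumulative contexts are closed. -/
theorem cum_det {k w : ℕ} (hw : w ≤ J)
    (hk : ∀ j ≤ k, wk j ≤ w → Det F.p (slam F (wk j)) (z j)) :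
    Det F.p (slam F w) (cum F B wk l z k w) := by
  intro ω ω' hω hω' h
  funext j
  unfold cum
  by_cases hc : j ≤ k ∧ wk j ≤ w
  · rw [if_pos hc, if_pos hc]
    congr 1
    have h1 : Det F.p (slam F w) (z j) := by
      intro a b ha hb e
      refine hk j hc.1 hc.2 a b ha hb ?_
      rw [Pool.PB.slam_coarse F hc.2 hw a, Pool.PB.slam_coarse F hc.2 hw b, e]
    exact ctt_det h1 ω ω' hω hω' h
  · rw [if_neg hc, if_neg hc]

/-- Base cells of the truncated context. -/
theorem ctt_cells {w q l : ℕ} {i0 : Fin 2} {z : F.Ω → Fin 2 → ℝ} (hq : q + w ≤ J)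
    (hz0 : ∀ ω, z ω i0 = 0) {ω ω' : F.Ω} (h : F.ctt w q l i0 z ω = F.ctt w q l i0 z ω') :
    ⌊(2 : ℝ) ^ (q + w) * F.x1 w ω i0⌋ = ⌊(2 : ℝ) ^ (q + w) * F.x1 w ω' i0⌋ ∧
      ⌊(2 : ℝ) ^ q * F.d ω i0⌋ = ⌊(2 : ℝ) ^ q * F.d ω' i0⌋ := by
  obtain ⟨-, -, h3, h4, -⟩ := tlb_ext ((Jmp.ctt_tlb hq hz0 ω ω').1 h)
  have h5 := congrFun h3 i0
  unfold pps at h5
  rw [if_pos rfl, if_pos rfl] at h5
  have h6 := congrFun h4 i0
  have e : ∀ o : F.Ω, rvs F q l i0 z o i0 = ⌊(2 : ℝ) ^ q * F.d o i0⌋ := by
    intro o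
    show ⌊(2 : ℝ) ^ q * pco l i0 (z o) (F.d o) i0⌋ = _
    unfold pco
    rw [if_pos rfl]
  rw [e, e] at h6
  exact ⟨h5, h6⟩

/-- The contexts of one level in two windows. -/
theorem ctt_nest {p : F.Ω → ℝ} (hp : IsLaw p) {w v q l : ℕ} {i0 : Fin 2}
    {z : F.Ω → Fin 2 → ℝ} (hwv : w ≤ v) (hv : v ≤ J)
    (hgr : ∀ ω i, ∃ a : ℤ, z ω i = a / 2 ^ l) :
    CH p (F.ctt w q l i0 z) (F.ctt v q l i0 z) ≤ cC := by
  have h := ctt_coarse (F := F) (p := p) (i0 := i0) (z := z) (z' := z) (D := 1) hp hv le_rfl hwv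
    (le_refl q) (le_refl l) hgr (fun ω _ i _ => by
      rw [sub_self, abs_zero]
      positivity)
  refine h.trans ?_
  unfold cC
  have h1 : Real.log (4 * 1 + 3) ≤ Real.log 19 := Real.log_le_log (by norm_num) (by norm_num)
  have h2 : Real.log (4 * ((2 : ℕ) : ℝ) * 1 + 3) ≤ Real.log 99 :=
    Real.log_le_log (by norm_num) (by norm_num)
  push_cast at h2 ⊢
  linarith

/-- The cumulative contexts are nested. -/
theorem cum_nest {k w v : ℕ} (hwv : w ≤ v) (hv : v ≤ J)
    (hgr : ∀ j ≤ k, wk j ≤ w → ∀ ω i, ∃ a : ℤ, z j ω i = a / 2 ^ l j) :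
    CH F.p (cum F B wk l z k w) (cum F B wk l z k v) ≤ (k + 1 : ℕ) * cC := by
  have hp := F.isLaw
  refine (CH_seq hp _ (k + 1) (cum F B wk l z k w) fun ω ω' j hj => cum_lt hj ω ω').trans ?_
  have h1 : ∀ j ∈ range (k + 1), CH F.p (fun ω => cum F B wk l z k w ω j)
      (cum F B wk l z k v) ≤ cC := by
    intro j hj
    have hjk : j ≤ k := by
      have := Finset.mem_range.1 hj
      omega
    by_cases hc : wk j ≤ w
    · have h2 : CH F.p (fun ω => cum F B wk l z k w ω j) (cum F B wk l z k v) ≤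
          CH F.p (F.ctt w (B j).q (l j) (B j).i0 (z j))
            (F.ctt v (B j).q (l j) (B j).i0 (z j)) := by
        refine (CH_mono_left (X' := F.ctt w (B j).q (l j) (B j).i0 (z j)) hp.nonneg ?_).trans
          (CH_mono_cond hp.nonneg ?_)
        · intro ω ω' _ _ e
          have e1 : F.ctt w (B j).q (l j) (B j).i0 (z j) ω =
            F.ctt w (B j).q (l j) (B j).i0 (z j) ω' := (Prod.ext_iff.mp e).1
          show cum F B wk l z k w ω j = cum F B wk l z k w ω' j
          rw [cum_pos hjk hc, cum_pos hjk hc, e1]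
        · exact cum_det_ctt hjk (hc.trans hwv)
      exact h2.trans (ctt_nest hp hwv hv (hgr j hjk hc))
    · have h2 : Det F.p (cum F B wk l z k v) (fun ω => cum F B wk l z k w ω j) := by
        intro ω ω' _ _ _
        show cum F B wk l z k w ω j = cum F B wk l z k w ω' j
        rw [cum_neg hc, cum_neg hc]
      rw [CH_eq_zero hp.nonneg h2]
      exact cC_nonneg
  refine (Finset.sum_le_sum h1).trans ?_
  rw [Finset.sum_const, Finset.card_range, nsmul_eq_mul]

/-- The cumulative context at the exact point. -/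
theorem cum_pt {A : F.Ω → Prop} {k w : ℕ} (hw : w ≤ J) {p' : F.Ω → ℝ} (hp' : IsLaw p')
    (hA : ∀ ω, 0 < p' ω → On F A ω) (hok : ∀ j ≤ k, wk j ≤ w → (B j).Ok A)
    (hc : ∀ j ≤ k, wk j ≤ w → Cld F (B j) (wk j) (l j) (z j) ∧ (B j).q + l j ≤ (B j).n) :
    CH p' (cum F B wk l z k w) (ptk B k) ≤ (k + 1 : ℕ) * cC := by
  have hp0 := hp'.nonneg
  refine (CH_seq hp' _ (k + 1) (cum F B wk l z k w) fun ω ω' j hj => cum_lt hj ω ω').trans ?_
  have h1 : ∀ j ∈ range (k + 1), CH p' (fun ω => cum F B wk l z k w ω j) (ptk B k) ≤ cC := by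
    intro j hj
    have hjk : j ≤ k := by
      have := Finset.mem_range.1 hj
      omega
    by_cases hcl : wk j ≤ w
    · obtain ⟨hcld, hle⟩ := hc j hjk hcl
      have hOk := hok j hjk hcl
      have h2 : CH p' (fun ω => cum F B wk l z k w ω j) (ptk B k) ≤
          CH p' (F.ctt w (B j).q (l j) (B j).i0 (z j)) (ptk B k) := by
        refine CH_mono_left hp0 ?_
        intro ω ω' _ _ e
        have e1 : F.ctt w (B j).q (l j) (B j).i0 (z j) ω =
          F.ctt w (B j).q (l j) (B j).i0 (z j) ω' := (Prod.ext_iff.mp e).1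
        show cum F B wk l z k w ω j = cum F B wk l z k w ω' j
        rw [cum_pos hjk hcl, cum_pos hjk hcl, e1]
      -- the slope of the box
      obtain ⟨e, he⟩ : ∃ e : F.Ω → Fin 2 → ℝ, e = (B j).z := ⟨_, rfl⟩
      have hlab : ∀ ω ω', ptk B k ω = ptk B k ω' → (B j).lab ω = (B j).lab ω' :=
        fun ω ω' h => clab_det hjk (congrArg Prod.snd h)
      have hea : ∀ ω ω', ptk B k ω = ptk B k ω' → e ω = e ω' := by
        intro ω ω' h
        have h3 : (B j).a ω = (B j).a ω' := congrArg Prod.fst (hlab ω ω' h)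
        rw [he]
        unfold Bx.z
        rw [h3]
      have hi : ∀ i : Fin 2, i ≠ (B j).i0 → i = oth (B j).i0 := by
        intro i hi
        unfold oth
        have h3 : i = 0 ∨ i = 1 := by fin_cases i <;> simp
        have h4 : (B j).i0 = 0 ∨ (B j).i0 = 1 := by
          generalize (B j).i0 = t
          fin_cases t <;> simp
        rcases h3 with h3 | h3 <;> rcases h4 with h4 | h4
        · exact absurd (h3.trans h4.symm) hi
        · rw [h3, h4]
          simp
        · rw [h3, h4]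
          simp
        · exact absurd (h3.trans h4.symm) hi
      have hcl4 : ∀ ω, 0 < p' ω → ∀ i, i ≠ (B j).i0 → |e ω i - z j ω i| ≤ 4 / 2 ^ l j := by
        intro ω hω i hi0
        have h3 := hcld.near ω (hA ω hω).1
        have h4 : e ω i = (B j).a ω := by
          rw [he]
          unfold Bx.z
          rw [if_neg hi0]
        rw [h4, hi i hi0]
        exact h3
      have k1 := CH_frame (F := F) (p := p') (i0 := (B j).i0) (z := e) (z' := z j) (l' := l j)
        hp' (by norm_num : (0 : ℝ) ≤ 4) hcld.grid hcl4 (ptk B k)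
        (fun ω ω' _ _ h i _ => by rw [hea ω ω' h])
      have k2 := ctt_pt (F := F) (p := p') (i0 := (B j).i0) (z := z j) (w := w) (q := (B j).q)
        (q' := (B j).q) (l' := l j) (n := (B j).n) (e := e) (B := 1) (D := 4) hp' hw le_rfl
        (by norm_num) le_rfl hle (fun ω hω i => by
          rw [he]
          unfold Bx.z
          split_ifs
          · rw [abs_zero]
            norm_num
          · exact hOk.sl ω (hA ω hω)) hcl4
        (fun ω => (zfr (B j).i0 (z j ω), ptk B k ω)) (by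
          intro ω ω' hω hω' h
          have h3 := (Prod.ext_iff.mp h).1
          have h4 : ptk B k ω = ptk B k ω' := (Prod.ext_iff.mp h).2
          have h5 : pt F ω = pt F ω' := congrArg Prod.fst h4
          have h6 := hlab ω ω' h4
          have h7 : ⌊(2 : ℝ) ^ (B j).q * F.d ω (B j).i0⌋ =
            ⌊(2 : ℝ) ^ (B j).q * F.d ω' (B j).i0⌋ :=
            congrArg (fun x : ℝ × (ℤ × ℤ) => x.2.1) h6
          have h8 : ⌊(2 : ℝ) ^ (B j).n * (B j).pr ω (F.d ω)⌋ =
            ⌊(2 : ℝ) ^ (B j).n * (B j).pr ω' (F.d ω')⌋ :=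
            congrArg (fun x : ℝ × (ℤ × ℤ) => x.2.2) h6
          have h9 : (B j).a ω = (B j).a ω' := congrArg Prod.fst h6
          refine ⟨congrArg Prod.fst h5, congrArg Prod.snd h5,
            fun i hi0 => ⟨by rw [hea ω ω' h4], zfr_eq h3 hi0⟩, floor_same h7, ?_⟩
          intro i hi0
          have h10 := floor_same h8
          have h11 : e ω i = (B j).a ω := by
            rw [he]
            unfold Bx.z
            rw [if_neg hi0]
          rw [h11, hi i hi0]
          unfold Bx.pr at h10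
          rw [← h9] at h10
          exact h10)
      have k3 := CH_le_add hp0 (F.ctt w (B j).q (l j) (B j).i0 (z j))
        (fun ω => zfr (B j).i0 (z j ω)) (ptk B k)
      have e1 : Real.log (4 * 4 + 3) = Real.log 19 := by norm_num
      have e2 : Real.log (2 * (((2 : ℕ) : ℝ) * 4 * (2 * (((2 : ℕ) : ℝ) * 1 + 1))) + 3) =
          Real.log 99 := by norm_num
      rw [e1] at k1
      rw [e2] at k2
      push_cast at k1 k2
      unfold cC
      linarith
    · have h2 : Det p' (ptk B k) (fun ω => cum F B wk l z k w ω j) := by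
        intro ω ω' _ _ _
        show cum F B wk l z k w ω j = cum F B wk l z k w ω' j
        rw [cum_neg hcl, cum_neg hcl]
      rw [CH_eq_zero hp0 h2]
      exact cC_nonneg
  refine (Finset.sum_le_sum h1).trans ?_
  rw [Finset.sum_const, Finset.card_range, nsmul_eq_mul]

/-- The number of the cumulative contexts at the exact point. -/
theorem cum_cnt {A : F.Ω → Prop} {k w : ℕ} (hw : w ≤ J)
    (hok : ∀ j ≤ k, wk j ≤ w → (B j).Ok A)
    (hc : ∀ j ≤ k, wk j ≤ w → Cld F (B j) (wk j) (l j) (z j) ∧ (B j).q + l j ≤ (B j).n) :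
    Cnt F A (ptk B k) (fun ω => (ptk B k ω, cum F B wk l z k w ω))
      (Real.exp ((k + 1 : ℕ) * cC)) := by
  refine cnt_of_CH fun p' hp' hA => ?_
  have h1 := cum_pt (B := B) (wk := wk) (l := l) (z := z) (k := k) hw hp' hA hok hc
  refine le_trans ?_ h1
  refine CH_mono_left hp'.nonneg ?_
  intro ω ω' _ _ e
  have e1 := Prod.ext_iff.mp e
  exact Prod.ext e1.2 e1.1

/-- The information in the cumulative contexts is monotone. -/
theorem cum_nfo {k w v : ℕ} (hwk : wk k ≤ w) (hwv : w ≤ v) (hv : v ≤ J)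
    (hc : ∀ j ≤ k, wk j ≤ v → Cld F (B j) (wk j) (l j) (z j)) :
    nfo F w (cum F B wk l z k w) ≤ nfo F v (cum F B wk l z k v) + (k + 1 : ℕ) * cC := by
  obtain ⟨X, rfl⟩ := Nat.exists_eq_add_of_le hwv
  have hp := F.isLaw
  have hT : Det F.p (cum F B wk l z k (w + X)) (F.T1 (w + X)) := by
    intro ω ω' hω hω' h
    exact ctt_T1 (F := F) (p := F.p) (i0 := (B k).i0) (z := z k) (le_refl (w + X)) hv ω ω' hω hω'
      (cum_det_ctt le_rfl (hwk.trans hwv) ω ω' hω hω' h)
  have h1 := Full.nfo_step F (w := w) (X := X) hv (cum F B wk l z k w)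
    (cum F B wk l z k (w + X)) (F.T1 (w + X))
    (cum_det (hwv.trans hv) fun j hj hw => (hc j hj (hw.trans hwv)).det)
    (fun ω ω' hω hω' h => ctt_Z (F := F) (p := F.p) (i0 := (B k).i0) (z := z k) ω ω' hω hω'
      (cum_det_ctt le_rfl hwk ω ω' hω hω' h)) hT (fun _ _ _ _ h => h)
  have h2 : CH F.p (cum F B wk l z k w) (fun ω => (cum F B wk l z k (w + X) ω, F.Z ω)) ≤
      (k + 1 : ℕ) * cC :=
    (CH_mono_cond hp.nonneg fun _ _ _ _ e => (Prod.ext_iff.mp e).1).trans
      (cum_nest hwv hv fun j hj hw => (hc j hj (hw.trans hwv)).grid)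
  have h3 := CH_nonneg hp.nonneg (cum F B wk l z k (w + X))
    (fun ω => (cum F B wk l z k w ω, F.T1 (w + X) ω))
  linarith

/-- **The cumulative contexts are a chain of contexts.** -/
theorem cum_cseq {k w X M : ℕ} (hwk : wk k ≤ w) (hJ : w + M * X ≤ J)
    (hc : ∀ j ≤ k, wk j ≤ J → Cld F (B j) (wk j) (l j) (z j)) :
    CSeq F w X M (fun j => cum F B wk l z k (w + j * X)) ((k + 1 : ℕ) * cC) := by
  have hle : ∀ j, j ≤ M → w + j * X ≤ J := by
    intro j hj
    have := Nat.mul_le_mul_right X hj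
    omega
  refine ⟨hJ, mul_nonneg (Nat.cast_nonneg _) cC_nonneg, ?_, ?_, ?_, ?_⟩
  · intro j hj
    exact cum_det (hle j hj) fun i hi hw => (hc i hi (hw.trans (hle j hj))).det
  · intro j hj ω ω' hω hω' h
    exact ctt_T1 (F := F) (p := F.p) (i0 := (B k).i0) (z := z k) (le_refl (w + j * X)) (hle j hj)
      ω ω' hω hω' (cum_det_ctt le_rfl (hwk.trans (Nat.le_add_right _ _)) ω ω' hω hω' h)
  · intro j hj ω ω' hω hω' h
    exact ctt_Z (F := F) (p := F.p) (i0 := (B k).i0) (z := z k) ω ω' hω hω'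
      (cum_det_ctt le_rfl (hwk.trans (Nat.le_add_right _ _)) ω ω' hω hω' h)
  · intro j hj
    refine cum_nest ?_ (hle (j + 1) hj) fun i hi hw => (hc i hi (hw.trans (hle j hj.le))).grid
    have := Nat.mul_le_mul_right X (show j ≤ j + 1 by omega)
    omega

end cum

end Pool.PC
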