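import Mathlib

/-!
# Plan C: progressions of windows, arithmetic

A function `N` of the windows which grows by two digits per unit below `J - q - l`, by one digit per
unit above it, on the progression of the multiples of `X`.
-/

set_option autoImplicit false

namespace Pool.PC

theorem prog_ar {N : ℕ → ℝ} {J w q l X : ℕ} {C₁ EB ET r L : ℝ} (hL : 0 ≤ L) (hX : 1 ≤ X)
    (hw : q + w ≤ J) (hC₁ : 0 ≤ C₁) (hEB : 0 ≤ EB) (hET : 0 ≤ ET) (hr : 0 ≤ r)
    (mv : ∀ v v', w ≤ v → v ≤ v' → q + v' ≤ J → N v ≤ N v' + C₁)
    (be : (∀ a m, w ≤ a * X → q + l + (a + m) * X ≤ J →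
      N (a * X) + 2 * m * X * L ≤ N ((a + m) * X) + EB) ∨ (J : ℝ) ≤ q + l + r)
    (tp : ∀ a m, w ≤ a * X → q + (a + m) * X ≤ J →
      N (a * X) + m * X * L ≤ N ((a + m) * X) + ET) :
    N w + (2 * (J * L) - ((min (q + w) J : ℕ) + (min (q + l + w) J : ℕ)) * L) ≤
      N (J - q) + (3 * C₁ + EB + ET + (5 * X + r) * L) := by
  obtain ⟨a, ha⟩ : ∃ a, a = w / X + 1 := ⟨_, rfl⟩
  have a1 : w ≤ a * X := by
    rw [ha]
    have := Nat.lt_mul_div_succ w (show 0 < X by omega)
    rw [Nat.mul_comm] at this
    exact this.le
  have a2 : a * X ≤ w + X := by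
    rw [ha, Nat.add_mul, Nat.one_mul]
    have := Nat.div_mul_le_self w X
    omega
  have hXr : (1 : ℝ) ≤ X := by exact_mod_cast hX
  -- the base coordinate
  have b0 : (((min (q + w) J : ℕ) : ℝ)) = q + w := by
    rw [min_eq_left hw]
    push_cast
    rfl
  by_cases hA : q + a * X ≤ J
  swap
  · -- at the end
    have h1 := mv w (J - q) le_rfl (by omega) (by omega)
    have h2 : (J : ℝ) ≤ q + w + X := by
      have : J ≤ q + w + X := by omega
      exact_mod_cast this
    have h3 : (J : ℝ) ≤ ((min (q + l + w) J : ℕ) : ℝ) + X := by
      have : J ≤ min (q + l + w) J + X := by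
        rcases le_total (q + l + w) J with h | h
        · rw [min_eq_left h]
          omega
        · rw [min_eq_right h]
          omega
      exact_mod_cast this
    rw [b0]
    have h4 : (J : ℝ) * L ≤ (q + w + X) * L := mul_le_mul_of_nonneg_right h2 hL
    have h5 := mul_le_mul_of_nonneg_right h3 hL
    have h6 : 0 ≤ X * L := by positivity
    have h7 : 0 ≤ r * L := by positivity
    linarith only [hC₁, hEB, hET, h1, h4, h5, h6, h7]
  · obtain ⟨m, m1, m2, m3⟩ : ∃ m : ℕ, q + (a + m) * X ≤ J ∧
        N (a * X) + 2 * m * X * L ≤ N ((a + m) * X) + EB ∧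
        (J : ℝ) ≤ ((min (q + l + w) J : ℕ) : ℝ) + (m * X + 2 * X + r) := by
      rcases be with be | be
      · by_cases h1 : q + l + a * X ≤ J
        · obtain ⟨m, hm⟩ : ∃ m, m = (J - q - l - a * X) / X := ⟨_, rfl⟩
          have h2 : m * X ≤ J - q - l - a * X := by
            rw [hm]
            exact Nat.div_mul_le_self _ _
          have h3 : J - q - l - a * X < m * X + X := by
            rw [hm]
            exact Nat.lt_div_mul_add (show 0 < X by omega)
          refine ⟨m, ?_, ?_, ?_⟩
          · rw [Nat.add_mul]
            omega
          · exact be a m a1 (by rw [Nat.add_mul]; omega)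
          · have h4 : J ≤ min (q + l + w) J + (m * X + 2 * X) := by
              rcases le_total (q + l + w) J with h | h
              · rw [min_eq_left h]
                omega
              · rw [min_eq_right h]
                omega
            have h5 : (J : ℝ) ≤ ((min (q + l + w) J : ℕ) : ℝ) + (m * X + 2 * X) := by
              exact_mod_cast h4
            linarith only [hr, h5]
        · refine ⟨0, by simpa using hA, ?_, ?_⟩
          · rw [Nat.add_zero, Nat.cast_zero]
            linarith only [hEB]
          · have h4 : J ≤ min (q + l + w) J + 2 * X := by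
              rcases le_total (q + l + w) J with h | h
              · rw [min_eq_left h]
                omega
              · rw [min_eq_right h]
                omega
            have h5 : (J : ℝ) ≤ ((min (q + l + w) J : ℕ) : ℝ) + 2 * X := by
              exact_mod_cast h4
            rw [Nat.cast_zero]
            linarith only [hr, h5]
      · refine ⟨0, by simpa using hA, ?_, ?_⟩
        · rw [Nat.add_zero, Nat.cast_zero]
          linarith only [hEB]
        · have h5 : (J : ℝ) ≤ ((min (q + l + w) J : ℕ) : ℝ) + r := by
            rcases le_total (q + l + w) J with h | h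
            · rw [min_eq_left h]
              push_cast
              have : (0 : ℝ) ≤ w := Nat.cast_nonneg w
              linarith only [be]
            · rw [min_eq_right h]
              linarith only [hr]
          rw [Nat.cast_zero]
          linarith only [hXr, h5]
    have h0 := mv w (a * X) le_rfl a1 hA
    have e1 : (a + m) * X = a * X + m * X := Nat.add_mul _ _ _
    have hv := mul_le_mul_of_nonneg_right m3 hL
    rw [b0]
    by_cases hB : q + (a + m + 1) * X ≤ J
    · obtain ⟨m', hm'⟩ : ∃ m', m' = (J - q - (a + m + 1) * X) / X := ⟨_, rfl⟩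
      have e2 : (a + m + 1) * X = a * X + m * X + X := by ring
      have h2 : m' * X ≤ J - q - (a + m + 1) * X := by
        rw [hm']
        exact Nat.div_mul_le_self _ _
      have h3 : J - q - (a + m + 1) * X < m' * X + X := by
        rw [hm']
        exact Nat.lt_div_mul_add (show 0 < X by omega)
      have e3 : (a + m + 1 + m') * X = a * X + m * X + X + m' * X := by ring
      have k1 := mv ((a + m) * X) ((a + m + 1) * X) (by omega) (by omega) hB
      have k2 := tp (a + m + 1) m' (by omega) (by omega)
      have k3 := mv ((a + m + 1 + m') * X) (J - q) (by omega) (by omega) (by omega)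
      have k4 : (J : ℝ) ≤ q + w + (m * X + m' * X + 3 * X) := by
        have : J ≤ q + w + (m * X + m' * X + 3 * X) := by omega
        exact_mod_cast this
      have k5 := mul_le_mul_of_nonneg_right k4 hL
      linarith only [m2, h0, hv, k1, k2, k3, k5]
    · have e2 : (a + m + 1) * X = a * X + m * X + X := by ring
      have k1 := mv ((a + m) * X) (J - q) (by omega) (by omega) (by omega)
      have k4 : (J : ℝ) ≤ q + w + (m * X + 2 * X) := by
        have : J ≤ q + w + (m * X + 2 * X) := by omega
        exact_mod_cast this
      have k5 := mul_le_mul_of_nonneg_right k4 hL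
      have k6 : 0 ≤ X * L := by positivity
      linarith only [hC₁, hET, m2, h0, hv, k1, k5, k6]

end Pool.PC
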