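import Pool.Agent.H73.PC.BetA
import Pool.Agent.H73.PC.Prog

/-!
# Plan C: above the saturation of the frame: one level
-/

set_option autoImplicit false

namespace Pool.PC

open Finset Real
open Pool.Agent.H49.Ent Pool.Agent.H32.Dense Pool.STK Pool.KA Pool.KSAT Pool.K2S Pool.S6U
open Pool.OCG (nr nr_nonneg)

/-- Both rows, all steps. -/
def BLin (K : ℕ) (ε δ : ℝ) (X₀ : ℕ) (C₁ : ℝ) : Prop :=
  ∀ (J : ℕ) (F : Fam 2 J) (i0 : Fin 2)
      (q w X M l g : ℕ) (z : F.Ω → Fin 2 → ℝ) (S Ξ : ℕ → Type) (C : (j : ℕ) → F.Ω → S j)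
      (W : (j : ℕ) → F.Ω → Ξ j) (c₀ : ℝ), CSeq F w X M C c₀ → X₀ ≤ X → (g : ℝ) ≤ δ * X →
      q + (w + M * X) + l ≤ J → (∀ ω i, |z ω i| ≤ 1) →
      (∀ j, j ≤ M → Det F.p (C j) (ctx F q i0 (w + j * X) l z)) →
      (∀ j, j < M → Det F.p (W j) (C j) ∧ Det F.p (W j) (F.X J) ∧ Det F.p (W j) F.T) →
      (∀ j, j < M → Pool.KAF.Pr F.p {ω | ∃ α β γ : ℝ, α ^ 2 + β ^ 2 = 1 ∧
        δ < Pool.KAF.Pr (Pool.Agent.H49.Ent.cond F.p (W j) (W j ω))
          {v | |α * Int.fract (Bet.V F i0 q l z 0 v) + β * Int.fract (Bet.V F i0 q l z 1 v) - γ| ≤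
            1 / 2 ^ g}} ≤ δ) →
      nfo F w (C 0) + M * ((2 - ε) * X * Real.log 2) -
          (12 * Real.log 2 * ∑ j ∈ range M, tmn F K X (w + j * X) +
            2 * Real.log 2 / δ * ∑ j ∈ range M, Pool.OC.RS.mi F.p (F.T1 (w + (j + 1) * X))
              (ctx F (q + X) i0 (w + j * X) l z) (C j) + M * (c₀ + C₁)) ≤
        nfo F (w + M * X) (C M)

/-- The base row, all steps. -/
def TLin (ε ca κ ϖ : ℝ) (k' : ℕ) (ι : ℝ) (X₀ : ℕ) : Prop :=
    ∀ (J : ℕ) (F : Fam 2 J) (S : ℕ → Type) (C : (j : ℕ) → F.Ω → S j) (i0 : Fin 2)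
      (w q X M : ℕ) (c₀ : ℝ), CSeq F w X M C c₀ → X₀ ≤ X → 1 ≤ X →
      (∀ j, j ≤ M → Det F.p (C j)
        (fun ω => ⌊(2 : ℝ) ^ (q + (w + j * X)) * F.x1 (w + j * X) ω i0⌋)) →
      (∀ j, j ≤ M → Det F.p (C j) (fun ω => ⌊(2 : ℝ) ^ q * F.d ω i0⌋)) →
      (∀ j, j < M → ∀ E : F.Ω → Prop, ϖ ≤ Pe F.p E → ca * ⌊κ * X⌋₊ * Real.log 2 ≤
        CH (Pool.Agent.H49.Ent.cond F.p E True)
          (fun ω => ⌊(2 : ℝ) ^ (q + ⌊κ * X⌋₊) * F.d ω i0⌋) (C j)) →
      nfo F w (C 0) + M * X * Real.log 2 - (ε * (M * X) * Real.log 2 +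
        3 * Real.log 2 * ∑ j ∈ range M, tmn F k' X (w + j * X) +
        Real.log 2 / ι * (∑ j ∈ range M, tiB F i0 q (w + j * X) X (C j)) +
        Real.log 2 / ι * ((X + 2) * Real.log 2 + M * c₀) + M * c₀) ≤
        nfo F (w + M * X) (C M)

theorem blin (K : ℕ) (ε : ℝ) (hε : 0 < ε) : ∃ (δ : ℝ) (X₀ : ℕ) (C₁ : ℝ), 0 < δ ∧ 0 ≤ C₁ ∧
    BLin K ε δ X₀ C₁ := by
  obtain ⟨δ, X₀, C₁, h1, h2, h3⟩ := beta_lin Pool.KS2.ksat2 K ε hε
  exact ⟨δ, X₀, C₁, h1, h2, fun J F i0 q w X M l g z S Ξ C W c₀ a1 a2 a3 a4 a5 a6 a7 a8 =>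
    h3 F i0 q w X M l g z C W c₀ a1 a2 a3 a4 a5 a6 a7 a8⟩

theorem tlin (ε ca κ : ℝ) (hε : 0 < ε) (hca : 0 < ca) (hκ : 0 < κ) (hκ1 : κ ≤ 1)
    (h8κ : 8 * κ ≤ ε) : ∃ ϖ : ℝ, 0 < ϖ ∧ ∀ k' : ℕ, ∃ (ι : ℝ) (X₀ : ℕ), 0 < ι ∧
    TLin ε ca κ ϖ k' ι X₀ := by
  obtain ⟨ϖ, h1, h2⟩ := top_seq ε ca κ hε hca hκ hκ1 h8κ
  refine ⟨ϖ, h1, fun k' => ?_⟩
  obtain ⟨ι, X₀, h3, h4⟩ := h2 k'
  exact ⟨ι, X₀, h3, fun J F S C i0 w q X M c₀ => h4 2 J F S C i0 w q X M c₀⟩

section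

variable {J : ℕ} {F : Fam 2 J} {B : ℕ → Bx F} {wk l : ℕ → ℕ} {z : ℕ → F.Ω → Fin 2 → ℝ}

/-- The sum of the dependences over the progression of the multiples of `X`. -/
noncomputable def tiS {J : ℕ} (F : Fam 2 J) (B : ℕ → Bx F) (wk l : ℕ → ℕ)
    (z : ℕ → F.Ω → Fin 2 → ℝ) (X k : ℕ) : ℝ :=
  ∑ i ∈ range (J / X), if wk k ≤ i * X ∧ (B k).q + i * X + X ≤ J then
    tik F B wk l z X k (i * X) else 0

theorem tik_sum {X k a m : ℕ} (hX : 1 ≤ X) (hwk : wk k ≤ a * X)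
    (h : (B k).q + (a + m) * X ≤ J) :
    ∑ j ∈ range m, tik F B wk l z X k (a * X + j * X) ≤ tiS F B wk l z X k := by
  have e1 : ∑ j ∈ range m, tik F B wk l z X k (a * X + j * X) =
      ∑ i ∈ Ico a (a + m), (if wk k ≤ i * X ∧ (B k).q + i * X + X ≤ J then
        tik F B wk l z X k (i * X) else 0) := by
    rw [Finset.sum_Ico_eq_sum_range, Nat.add_sub_cancel_left]
    refine Finset.sum_congr rfl fun j hj => ?_
    have hj' := Finset.mem_range.1 hj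
    have e2 : (a + j) * X = a * X + j * X := Nat.add_mul _ _ _
    have e3 : (a + m) * X = a * X + m * X := Nat.add_mul _ _ _
    have e4 := Nat.mul_le_mul_right X (show j + 1 ≤ m by omega)
    have e5 : (j + 1) * X = j * X + X := by ring
    rw [if_pos ⟨by omega, by omega⟩, e2]
  rw [e1]
  unfold tiS
  refine Finset.sum_le_sum_of_subset_of_nonneg ?_ ?_
  · intro i hi
    rw [mem_Ico] at hi
    rw [mem_range, Nat.lt_div_iff_mul_lt (by omega)]
    have e4 := Nat.mul_le_mul_right X (show i + 1 ≤ a + m by omega)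
    have e5 : (i + 1) * X = i * X + X := by ring
    omega
  · intro i _ _
    split_ifs
    · exact tik_nonneg _ _ _
    · exact le_rfl

/-- **Both rows**, on the progression. -/
theorem be_k {K g s X k a m w n : ℕ} {ε del C₁ η h : ℝ} {X₀ : ℕ} {c : Nm}
    (hBL : BLin K ε del X₀ C₁) (hdel : 0 < del) (hC₁ : 0 ≤ C₁) (hε : 0 ≤ ε)
    (hok : ∀ j ≤ k, (B j).Ok (fun _ => True))
    (hc : ∀ j ≤ k, wk j ≤ J → Cld F (B j) (wk j) (l j) (z j) ∧ (B j).q + l j ≤ (B j).n)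
    (hs : (B k).n ≤ (B k).q + l k + s) (hlv : Lvl F c n h B k) (hc1 : c.n < 1)
    (hh : h ≤ del ^ 2 / Real.exp ((k + 1 : ℕ) * cC)) (hg : ⌈h * J⌉₊ + s + 5 ≤ g)
    (hgX : (g : ℝ) ≤ del * X) (hX₀ : X₀ ≤ X) (hX : 1 ≤ X) (hTim : Tim F K η h) (hη : 0 ≤ η)
    (hh0 : 0 ≤ h) (hh1 : h ≤ 1) (hwk : wk k ≤ w) (haw : w ≤ a * X)
    (hJ : (B k).q + l k + (a + m) * X ≤ J) :
    nfo F (a * X) (cum F B wk l z k (a * X)) + 2 * m * X * Real.log 2 ≤
      nfo F ((a + m) * X) (cum F B wk l z k ((a + m) * X)) +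
        (ε * J * Real.log 2 + 12 * Real.log 2 * ((2 * η + h) * J + K) +
          2 * Real.log 2 / del * tiS F B wk l z X k +
          (J / X : ℕ) * ((k + 1 : ℕ) * cC + C₁)) := by
  have hl2 : 0 < Real.log 2 := Real.log_pos (by norm_num)
  have hwk' : wk k ≤ a * X := hwk.trans haw
  have e3 : (a + m) * X = a * X + m * X := Nat.add_mul _ _ _
  have hle : ∀ j, j ≤ m → a * X + j * X ≤ a * X + m * X := fun j hj =>
    Nat.add_le_add_left (Nat.mul_le_mul_right X hj) _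
  have hkJ : wk k ≤ J := by omega
  have hck := hc k le_rfl hkJ
  have key := hBL J F (B k).i0 (B k).q (a * X) X m (l k) g (z k) _ _
    (fun j => cum F B wk l z k (a * X + j * X))
    (fun j ω => (ptk B k ω, cum F B wk l z k (a * X + j * X) ω)) ((k + 1 : ℕ) * cC)
    (cum_cseq hwk' (by omega) fun j hj hjw => (hc j hj hjw).1) hX₀ hgX (by omega) hck.1.le1
    (by
      intro j hj ω ω' hω hω' e
      have h1 := hle j hj
      exact ctx_of_ctt (F := F) hck.1.z0 (by omega)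
        (cum_det_ctt (F := F) (B := B) (wk := wk) (l := l) (z := z) le_rfl
          (hwk'.trans (Nat.le_add_right _ _)) ω ω' hω hω' e))
    (by
      intro j hj
      refine ⟨fun ω ω' _ _ e => (Prod.ext_iff.mp e).2, fun ω ω' _ _ e => ?_,
        fun ω ω' _ _ e => ?_⟩
      · have h1 : ptk B k ω = ptk B k ω' := (Prod.ext_iff.mp e).1
        have h2 : pt F ω = pt F ω' := (Prod.ext_iff.mp h1).1
        exact (Prod.ext_iff.mp h2).1
      · have h1 : ptk B k ω = ptk B k ω' := (Prod.ext_iff.mp e).1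
        have h2 : pt F ω = pt F ω' := (Prod.ext_iff.mp h1).1
        have h3 : F.W ω = F.W ω' := (Prod.ext_iff.mp h2).2
        exact (Prod.ext_iff.mp h3).1)
    (by
      intro j hj
      have h1 := hle j hj.le
      exact flat_k (B := B) (wk := wk) (l := l) (z := z) (k := k) hok
        (hwk'.trans (Nat.le_add_right _ _)) (by omega) hc hs hlv hc1 hdel hh hg)
  simp only [Nat.zero_mul, Nat.add_zero] at key
  rw [← e3] at key
  have t1 := tmn_sum F hTim hη hh0 hh1 (w := a * X) (X := X) (M := m) (by omega)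
  have t2 : ∑ j ∈ range m, Pool.OC.RS.mi F.p (F.T1 (a * X + (j + 1) * X))
      (ctx F ((B k).q + X) (B k).i0 (a * X + j * X) (l k) (z k))
      (cum F B wk l z k (a * X + j * X)) ≤ tiS F B wk l z X k := by
    refine le_trans (Finset.sum_le_sum fun j hj => ?_)
      (tik_sum (F := F) (B := B) (wk := wk) (l := l) (z := z) (m := m) hX hwk' (by omega))
    have h1 := hle (j + 1) (Finset.mem_range.1 hj)
    have e4 : a * X + (j + 1) * X = a * X + j * X + X := by ring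
    rw [e4] at h1 ⊢
    exact mi_ctx_le_tik (by omega) hck.1.z0
  have t3 : m ≤ J / X := by
    rw [Nat.le_div_iff_mul_le (by omega)]
    omega
  have t4 : (m : ℝ) ≤ (J / X : ℕ) := by exact_mod_cast t3
  have t5 : (m : ℝ) * X ≤ J := by
    have : m * X ≤ J := by omega
    exact_mod_cast this
  have hcc : 0 ≤ ((k + 1 : ℕ) : ℝ) * cC + C₁ :=
    add_nonneg (mul_nonneg (Nat.cast_nonneg _) cC_nonneg) hC₁
  have u1 := mul_le_mul_of_nonneg_left t1 (show 0 ≤ 12 * Real.log 2 by positivity)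
  have u2 := mul_le_mul_of_nonneg_left t2 (show 0 ≤ 2 * Real.log 2 / del by positivity)
  have u3 := mul_le_mul_of_nonneg_right t4 hcc
  have u4 := mul_le_mul_of_nonneg_left t5 (show 0 ≤ ε * Real.log 2 by positivity)
  linarith

/-- **The base row**, on the progression. -/
theorem tp_k {K X k a m w n : ℕ} {ε δ κ ϖ ι η h : ℝ} {X₀ : ℕ} {c : Nm}
    (hTL : TLin ε (δ / 4) κ ϖ K ι X₀) (hι : 0 < ι) (hϖ : 0 < ϖ) (hε : 0 ≤ ε) (hδ : 0 < δ)
    (hκ : 0 < κ) (hκ1 : κ ≤ 1 / 4)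
    (hok : ∀ j ≤ k, (B j).Ok (fun _ => True))
    (hc : ∀ j ≤ k, wk j ≤ J → Cld F (B j) (wk j) (l j) (z j) ∧ (B j).q + l j ≤ (B j).n)
    (hlv : Lvl F c n h B k) (hcOk : c.Ok δ) (hn : 1 ≤ n) (hJ1 : 1 ≤ J)
    (hhϖ : h ≤ ϖ) (hhX : 4 * (h * J) ≤ X)
    (hact : δ / 4 * ⌊κ * X⌋₊ * Real.log 2 ≤
      (δ * (⌊κ * X⌋₊ - J / n) - h * J) * Real.log 2 - (k + 1 : ℕ) * cC)
    (hX₀ : X₀ ≤ X) (hX : 1 ≤ X) (hTim : Tim F K η h) (hη : 0 ≤ η)
    (hh0 : 0 ≤ h) (hh1 : h ≤ 1) (hwk : wk k ≤ w) (haw : w ≤ a * X)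
    (hJ : (B k).q + (a + m) * X ≤ J) :
    nfo F (a * X) (cum F B wk l z k (a * X)) + m * X * Real.log 2 ≤
      nfo F ((a + m) * X) (cum F B wk l z k ((a + m) * X)) +
        (ε * J * Real.log 2 + 3 * Real.log 2 * ((2 * η + h) * J + K) +
          Real.log 2 / ι * tiS F B wk l z X k +
          Real.log 2 / ι * ((X + 2) * Real.log 2 + (J / X : ℕ) * ((k + 1 : ℕ) * cC)) +
          (J / X : ℕ) * ((k + 1 : ℕ) * cC)) := by
  have hl2 : 0 < Real.log 2 := Real.log_pos (by norm_num)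
  have hwk' : wk k ≤ a * X := hwk.trans haw
  have e3 : (a + m) * X = a * X + m * X := Nat.add_mul _ _ _
  have hle : ∀ j, j ≤ m → a * X + j * X ≤ a * X + m * X := fun j hj =>
    Nat.add_le_add_left (Nat.mul_le_mul_right X hj) _
  have hkJ : wk k ≤ J := by omega
  have hck := hc k le_rfl hkJ
  have hcells : ∀ j, j ≤ m → ∀ ω ω', 0 < F.p ω → 0 < F.p ω' →
      cum F B wk l z k (a * X + j * X) ω = cum F B wk l z k (a * X + j * X) ω' →
      ⌊(2 : ℝ) ^ ((B k).q + (a * X + j * X)) * F.x1 (a * X + j * X) ω (B k).i0⌋ =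
        ⌊(2 : ℝ) ^ ((B k).q + (a * X + j * X)) * F.x1 (a * X + j * X) ω' (B k).i0⌋ ∧
      ⌊(2 : ℝ) ^ (B k).q * F.d ω (B k).i0⌋ = ⌊(2 : ℝ) ^ (B k).q * F.d ω' (B k).i0⌋ := by
    intro j hj ω ω' hω hω' e
    have h1 := hle j hj
    exact ctt_cells (F := F) (by omega) hck.1.z0
        (cum_det_ctt (F := F) (B := B) (wk := wk) (l := l) (z := z) le_rfl
          (hwk'.trans (Nat.le_add_right _ _)) ω ω' hω hω' e)
  have key := hTL J F _ (fun j => cum F B wk l z k (a * X + j * X)) (B k).i0 (a * X) (B k).q X m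
    ((k + 1 : ℕ) * cC)
    (cum_cseq hwk' (by omega) fun j hj hjw => (hc j hj hjw).1) hX₀ hX
    (fun j hj ω ω' hω hω' e => (hcells j hj ω ω' hω hω' e).1)
    (fun j hj ω ω' hω hω' e => (hcells j hj ω ω' hω hω' e).2)
    (by
      intro j hj E hE
      have hE0 : 0 < Pe F.p E := lt_of_lt_of_le hϖ hE
      have hXr : (1 : ℝ) ≤ X := by exact_mod_cast hX
      have hy : (⌊κ * X⌋₊ : ℝ) ≤ κ * X := Nat.floor_le (by positivity)
      have hy2 : (⌊κ * X⌋₊ : ℝ) ≤ X / 4 := by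
        have := mul_le_mul_of_nonneg_right hκ1 (show (0 : ℝ) ≤ X by positivity)
        linarith
      have hy3 : ⌊κ * X⌋₊ ≤ X := by
        have : (⌊κ * X⌋₊ : ℝ) ≤ X := by linarith
        exact_mod_cast this
      have h1 := hle (j + 1) hj
      have e4 : (j + 1) * X = j * X + X := by ring
      have h2 : (B k).q + X ≤ J := by omega
      have h3 : ((B k).q : ℝ) + X ≤ J := by exact_mod_cast h2
      have h4 := abs_le.1 hlv.hq
      have h5 := cum_pt (A := fun _ => True) (B := B) (wk := wk) (l := l) (z := z) (k := k)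
        (w := a * X + j * X) (by omega) (isLaw_cond F.isLaw hE0) (fun ω hω => ⟨by
          by_contra hcon
          have h6 : F.p ω = 0 := le_antisymm (not_lt.1 hcon) (F.isLaw.nonneg ω)
          unfold Pool.Agent.H49.Ent.cond at hω
          rw [h6, zero_div, ite_self] at hω
          exact lt_irrefl _ hω, trivial⟩) (fun i hi _ => hok i hi)
        (fun i hi hiw => hc i hi (hiw.trans (by omega)))
      have h6 := act_ctx hcOk hδ.le hlv hn hJ1 (cum F B wk l z k (a * X + j * X))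
        (y := ⌊κ * X⌋₊) (by omega) (by nlinarith [h4.1]) (E := E) (hhϖ.trans hE) hE0 h5
      exact hact.trans h6)
  simp only [Nat.zero_mul, Nat.add_zero] at key
  rw [← e3] at key
  have t1 := tmn_sum F hTim hη hh0 hh1 (w := a * X) (X := X) (M := m) (by omega)
  have t2 : ∑ j ∈ range m, tiB F (B k).i0 (B k).q (a * X + j * X) X
      (cum F B wk l z k (a * X + j * X)) ≤ tiS F B wk l z X k := by
    refine le_trans (Finset.sum_le_sum fun j hj => ?_)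
      (tik_sum (F := F) (B := B) (wk := wk) (l := l) (z := z) (m := m) hX hwk' (by omega))
    have h1 := hle (j + 1) (Finset.mem_range.1 hj)
    have e4 : a * X + (j + 1) * X = a * X + j * X + X := by ring
    rw [e4] at h1
    exact tiB_le_tik (by omega) hck.1.z0
  have t3 : m ≤ J / X := by
    rw [Nat.le_div_iff_mul_le (by omega)]
    omega
  have t4 : (m : ℝ) ≤ (J / X : ℕ) := by exact_mod_cast t3
  have t5 : (m : ℝ) * X ≤ J := by
    have : m * X ≤ J := by omega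
    exact_mod_cast this
  have hcc : 0 ≤ ((k + 1 : ℕ) : ℝ) * cC := mul_nonneg (Nat.cast_nonneg _) cC_nonneg
  have u1 := mul_le_mul_of_nonneg_left t1 (show 0 ≤ 3 * Real.log 2 by positivity)
  have u2 := mul_le_mul_of_nonneg_left t2 (show 0 ≤ Real.log 2 / ι by positivity)
  have u3 := mul_le_mul_of_nonneg_right t4 hcc
  have u4 := mul_le_mul_of_nonneg_left t5 (show 0 ≤ ε * Real.log 2 by positivity)
  have u5 := mul_le_mul_of_nonneg_left u3 (show 0 ≤ Real.log 2 / ι by positivity)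
  rw [mul_add (Real.log 2 / ι)] at key ⊢
  linarith

end

end Pool.PC
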